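import Pool.Agent.H.MP_b3c6db_nt.NL.Upper
import Pool.Agent.H.MP_b3c6db_nt.NC.Main
import Pool.Agent.H.MP_b3c6db_nt.NC.LowC

/-! The order of magnitude of `deltaL1 A H` for `1 ≤ A ≤ 2 log H`.

PROOF. `deltaL1_anti`: the set grows with `A`; it is nonempty for `A ≥ 1` (`admissible_trivial`) and bounded below by `0`
(`cosPoly_zero_nonneg`, LowerFinal.lean). `deltaL1_le_deltaPos`: if `c k ≥ 0` for `k ≥ 1` then also `c 0 ≥ 0` and
`∑ |c k| = ∑ c k = cosPoly H c 0 = 1 ≤ A`. `deltaL1_le_one`: the constant polynomial.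
`deltaL1_lower`: `nc_l1` gives `a/log H ≤ c 0 * ∑ |c k| ≤ c 0 * A`.
`deltaL1_upper`: let `C` be the constant of `upper_l1`, valid for `J ≥ J₀`, `C'` that of `deltaPos_upper`, `C₂ = 4 * 10^10`.
If `A ≤ C₂`: `deltaL1 A H ≤ deltaPos H ≤ C'/log H ≤ |C'| C₂/(A log H)`. If `A > C₂` and `log H > 10 (J₀ + 2)`: `J = ⌊log H/10⌋ ≥ log H/20`,
`J ≥ J₀`, `τ = A/C₂ ≥ 1`, `τ ≤ 2 log H/C₂ ≤ 40 J/C₂ = J/10^9`, `30000 τ ≤ A`:
`deltaL1 A H ≤ deltaL1 (30000 τ) H ≤ C/(τ J) ≤ 20 C C₂/(A log H)`. If `log H ≤ 10 (J₀ + 2)`: `deltaL1 A H ≤ 1` and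
`A log H ≤ 2 (log H)^2 ≤ 200 (J₀ + 2)^2`. -/

set_option autoImplicit false

namespace Pool.Agent.H.MP_b3c6db_nt

open Finset Filter

private lemma NLMain_ne (A : ℝ) (hA : 1 ≤ A) (H : ℕ) :
    (1 : ℝ) ∈ {a : ℝ | ∃ c : ℕ → ℝ, Admissible H c ∧ ∑ k ∈ Finset.range (H + 1), |c k| ≤ A ∧
      c 0 = a} := by
  refine ⟨fun k => if k = 0 then 1 else 0, admissible_trivial H, ?_, by simp⟩
  have h1 : ∑ k ∈ Finset.range (H + 1), |(if k = 0 then (1 : ℝ) else 0)| = 1 := by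
    rw [Finset.sum_eq_single 0]
    · simp
    · intro k _ hk
      rw [if_neg hk, abs_zero]
    · intro h
      exact absurd (Finset.mem_range.2 (Nat.succ_pos H)) h
  rw [h1]
  exact hA

private lemma NLMain_bdd (A : ℝ) (H : ℕ) :
    BddBelow {a : ℝ | ∃ c : ℕ → ℝ, Admissible H c ∧ ∑ k ∈ Finset.range (H + 1), |c k| ≤ A ∧
      c 0 = a} :=
  ⟨0, by rintro a ⟨c, hc, -, rfl⟩; exact cosPoly_zero_nonneg H c hc⟩

private lemma NLMain_nonneg (A : ℝ) (hA : 1 ≤ A) (H : ℕ) : 0 ≤ deltaL1 A H := by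
  unfold deltaL1
  refine le_csInf ⟨1, NLMain_ne A hA H⟩ ?_
  rintro a ⟨c, hc, -, rfl⟩
  exact cosPoly_zero_nonneg H c hc

lemma deltaL1_anti (A A' : ℝ) (hA : 1 ≤ A) (h : A ≤ A') (H : ℕ) : deltaL1 A' H ≤ deltaL1 A H := by
  unfold deltaL1
  refine csInf_le_csInf (NLMain_bdd A' H) ⟨1, NLMain_ne A hA H⟩ ?_
  rintro a ⟨c, hc, h1, h2⟩
  exact ⟨c, hc, h1.trans h, h2⟩

lemma deltaL1_le_one (A : ℝ) (hA : 1 ≤ A) (H : ℕ) : deltaL1 A H ≤ 1 := by
  unfold deltaL1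
  exact csInf_le (NLMain_bdd A H) (NLMain_ne A hA H)

lemma deltaL1_le_deltaPos (A : ℝ) (hA : 1 ≤ A) (H : ℕ) : deltaL1 A H ≤ deltaPos H := by
  unfold deltaL1 deltaPos
  refine csInf_le_csInf (NLMain_bdd A H) ?_ ?_
  · refine ⟨1, fun k => if k = 0 then 1 else 0, admissible_trivial H, ?_, by simp⟩
    intro k _ _
    show (0 : ℝ) ≤ if k = 0 then 1 else 0
    split_ifs
    · norm_num
    · exact le_rfl
  · rintro a ⟨c, hc, hpos, rfl⟩
    refine ⟨c, hc, ?_, rfl⟩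
    have h0 : 0 ≤ c 0 := cosPoly_zero_nonneg H c hc
    have h1 : ∑ k ∈ Finset.range (H + 1), |c k| = ∑ k ∈ Finset.range (H + 1), c k := by
      refine Finset.sum_congr rfl fun k hk => ?_
      rw [Finset.mem_range] at hk
      rcases Nat.eq_zero_or_pos k with h2 | h2
      · rw [h2]
        exact abs_of_nonneg h0
      · exact abs_of_nonneg (hpos k h2 (by omega))
    have h2 : Finset.range (H + 1) = insert 0 (Finset.Icc 1 H) := by
      ext k
      rw [Finset.mem_insert, Finset.mem_range, Finset.mem_Icc]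
      omega
    have h3 : (0 : ℕ) ∉ Finset.Icc 1 H := by
      rw [Finset.mem_Icc]
      omega
    have h4 : cosPoly H c 0 = ∑ k ∈ Finset.range (H + 1), c k := by
      rw [h2, Finset.sum_insert h3]
      unfold cosPoly
      congr 1
      refine Finset.sum_congr rfl fun k _ => ?_
      rw [mul_zero, Real.cos_zero, mul_one]
    rw [h1, ← h4, hc.2]
    exact hA

theorem deltaL1_lower : ∃ c : ℝ, 0 < c ∧ ∀ H : ℕ, 2 ≤ H → ∀ A : ℝ, 1 ≤ A →
    c / (A * Real.log H) ≤ deltaL1 A H := by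
  obtain ⟨a, ha, h⟩ := nc_l1
  refine ⟨a, ha, fun H hH A hA => ?_⟩
  unfold deltaL1
  refine le_csInf ⟨1, NLMain_ne A hA H⟩ ?_
  rintro b ⟨c, hc, hs, rfl⟩
  have h0 : 0 ≤ c 0 := cosPoly_zero_nonneg H c hc
  have h1 := h H hH c hc
  have h2 : a / Real.log H ≤ c 0 * A := h1.trans (mul_le_mul_of_nonneg_left hs h0)
  have hA0 : 0 < A := lt_of_lt_of_le one_pos hA
  rw [mul_comm A, ← div_div, div_le_iff₀ hA0]
  exact h2

theorem deltaL1_upper : ∃ C : ℝ, 0 < C ∧ ∀ H : ℕ, 2 ≤ H → ∀ A : ℝ, 1 ≤ A → A ≤ 2 * Real.log H →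
    deltaL1 A H ≤ C / (A * Real.log H) := by
  obtain ⟨C, hC0, hC⟩ := upper_l1
  rw [eventually_atTop] at hC
  obtain ⟨J₀, hJ₀⟩ := hC
  obtain ⟨C', hC'⟩ := deltaPos_upper
  obtain ⟨J₁, hJ₁⟩ : ∃ J₁ : ℝ, J₁ = (J₀ : ℝ) + 2 := ⟨_, rfl⟩
  have hJ12 : 2 ≤ J₁ := by
    rw [hJ₁]
    linarith [(Nat.cast_nonneg J₀ : (0 : ℝ) ≤ J₀)]
  have hCabs := abs_nonneg C'
  refine ⟨|C'| * (4 * 10 ^ 10) + 20 * C * (4 * 10 ^ 10) + 200 * J₁ ^ 2, by positivity,
    fun H hH A hA hA2 => ?_⟩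
  have hH2 : (2 : ℝ) ≤ H := by exact_mod_cast hH
  have hl : 0 < Real.log H := Real.log_pos (by linarith)
  have hA0 : 0 < A := lt_of_lt_of_le one_pos hA
  have hAl : 0 < A * Real.log H := mul_pos hA0 hl
  have hd0 := NLMain_nonneg A hA H
  rw [le_div_iff₀ hAl]
  have t1 : 0 ≤ |C'| * (4 * 10 ^ 10 : ℝ) := by positivity
  have t2 : 0 ≤ 20 * C * (4 * 10 ^ 10 : ℝ) := by positivity
  have t3 : 0 ≤ 200 * J₁ ^ 2 := by positivity
  rcases le_or_gt A (4 * 10 ^ 10) with hcase | hcase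
  · have h1 : deltaL1 A H ≤ C' / Real.log H := (deltaL1_le_deltaPos A hA H).trans (hC' H hH)
    have h2 : deltaL1 A H * Real.log H ≤ |C'| := by
      rw [le_div_iff₀ hl] at h1
      exact h1.trans (le_abs_self C')
    have h3 : deltaL1 A H * (A * Real.log H) = (deltaL1 A H * Real.log H) * A := by ring
    have h4 : (deltaL1 A H * Real.log H) * A ≤ |C'| * (4 * 10 ^ 10) :=
      mul_le_mul h2 hcase hA0.le hCabs
    linarith
  · rcases le_or_gt (Real.log H) (10 * J₁) with h | h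
    · have h1 := deltaL1_le_one A hA H
      have h2 : deltaL1 A H * (A * Real.log H) ≤ 1 * (A * Real.log H) :=
        mul_le_mul_of_nonneg_right h1 hAl.le
      have h3 : A * Real.log H ≤ 2 * Real.log H * Real.log H :=
        mul_le_mul_of_nonneg_right hA2 hl.le
      have h4 : Real.log H * Real.log H ≤ (10 * J₁) * (10 * J₁) :=
        mul_le_mul h h hl.le (by linarith)
      have h5 : (10 * J₁) * (10 * J₁) = 100 * J₁ ^ 2 := by ring
      linarith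
    · obtain ⟨J, hJ⟩ : ∃ J : ℕ, J = ⌊Real.log H / 10⌋₊ := ⟨_, rfl⟩
      have h1 : (J : ℝ) ≤ Real.log H / 10 := by
        rw [hJ]
        exact Nat.floor_le (by positivity)
      have h2 : Real.log H / 10 < J + 1 := by
        rw [hJ]
        exact Nat.lt_floor_add_one _
      have h3 : (J₀ : ℝ) + 1 < J := by
        rw [hJ₁] at h
        linarith
      have h4 : J₀ ≤ J := by
        have : ((J₀ + 1 : ℕ) : ℝ) < (J : ℕ) := by
          push_cast
          exact h3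
        have h5 : J₀ + 1 < J := by exact_mod_cast this
        omega
      have hJ1 : (1 : ℝ) ≤ J := by linarith [(Nat.cast_nonneg J₀ : (0 : ℝ) ≤ J₀)]
      have hJpos : (0 : ℝ) < J := by linarith
      have h6 : Real.log H ≤ 20 * J := by linarith
      obtain ⟨τ, hτ⟩ : ∃ τ : ℝ, τ = A / (4 * 10 ^ 10) := ⟨_, rfl⟩
      have hAτ : A = τ * (4 * 10 ^ 10) := by
        rw [hτ]
        field_simp
      have hτ1 : 1 ≤ τ := by
        rw [hτ, le_div_iff₀ (by positivity)]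
        linarith
      have hτJ : τ ≤ J / 10 ^ 9 := by
        rw [hτ, div_le_div_iff₀ (by positivity) (by positivity)]
        linarith
      have h7 := hJ₀ J h4 τ hτ1 hτJ H (by
        calc Real.exp (10 * J) ≤ Real.exp (Real.log H) := Real.exp_le_exp.2 (by linarith)
          _ = H := Real.exp_log (by linarith))
      have h8 : deltaL1 A H ≤ deltaL1 (30000 * τ) H :=
        deltaL1_anti (30000 * τ) A (by linarith) (by rw [hAτ]; linarith) H
      have h9 : deltaL1 A H ≤ C / (τ * J) := h8.trans h7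
      have hτ0 : 0 < τ := by linarith
      have hτJ0 : 0 < τ * J := mul_pos hτ0 hJpos
      have h10 : A * Real.log H ≤ (τ * J) * (20 * (4 * 10 ^ 10)) := by
        rw [hAτ]
        have h11 : τ * (4 * 10 ^ 10) * Real.log H ≤ τ * (4 * 10 ^ 10) * (20 * J) :=
          mul_le_mul_of_nonneg_left h6 (by positivity)
        linarith
      have h12 : deltaL1 A H * (A * Real.log H) ≤ C / (τ * J) * ((τ * J) * (20 * (4 * 10 ^ 10))) :=
        mul_le_mul h9 h10 hAl.le (div_nonneg hC0 hτJ0.le)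
      have h13 : C / (τ * J) * ((τ * J) * (20 * (4 * 10 ^ 10))) = 20 * C * (4 * 10 ^ 10) := by
        field_simp
      linarith

theorem nl_main : ∃ c C : ℝ, 0 < c ∧ 0 < C ∧ ∀ H : ℕ, 2 ≤ H → ∀ A : ℝ, 1 ≤ A →
    A ≤ 2 * Real.log H →
    c / (A * Real.log H) ≤ deltaL1 A H ∧ deltaL1 A H ≤ C / (A * Real.log H) := by
  obtain ⟨c, hc, h1⟩ := deltaL1_lower
  obtain ⟨C, hC, h2⟩ := deltaL1_upper
  exact ⟨c, C, hc, hC, fun H hH A hA hA2 => ⟨h1 H hH A hA, h2 H hH A hA hA2⟩⟩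

end Pool.Agent.H.MP_b3c6db_nt
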