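import Pool.Agent.H.MP_b3c6db_nt.NL.Defs
import Pool.Agent.H.MP_b3c6db_nt.SB.Cons

/-! From signed weights `w(d)` with `∑ |w(d)| ≤ W` to an admissible polynomial with a bound for the sum
of the absolute values of its coefficients. -/

namespace Pool.Agent.H.MP_b3c6db_nt

open Finset Complex

/-- `f` is a cosine polynomial with square frequencies, constant term `a`, and the sum of the
absolute values of its coefficients is at most `L`. -/
def IsCPl (H : ℕ) (a L : ℝ) (f : ℝ → ℝ) : Prop :=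
  ∃ c : ℕ → ℝ, c 0 = a ∧ ∑ k ∈ range (H + 1), |c k| ≤ L ∧ ∀ x, cosPoly H c x = f x

lemma IsCPl.add {H : ℕ} {a b L M : ℝ} {f g : ℝ → ℝ} (hf : IsCPl H a L f) (hg : IsCPl H b M g) :
    IsCPl H (a + b) (L + M) (fun x => f x + g x) := by
  obtain ⟨c, hc0, hcp, hc⟩ := hf
  obtain ⟨c', hc0', hcp', hc'⟩ := hg
  refine ⟨fun k => c k + c' k, by beta_reduce; rw [hc0, hc0'], ?_, ?_⟩
  · refine (sum_le_sum (fun k _ => abs_add_le (c k) (c' k))).trans ?_
    rw [sum_add_distrib]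
    exact add_le_add hcp hcp'
  intro x
  beta_reduce
  rw [← hc x, ← hc' x]
  unfold cosPoly
  have h1 : ∑ k ∈ Icc 1 H, (c k + c' k) * Real.cos (2 * Real.pi * (k : ℝ) ^ 2 * x) =
      ∑ k ∈ Icc 1 H, c k * Real.cos (2 * Real.pi * (k : ℝ) ^ 2 * x) +
      ∑ k ∈ Icc 1 H, c' k * Real.cos (2 * Real.pi * (k : ℝ) ^ 2 * x) := by
    rw [← sum_add_distrib]
    apply sum_congr rfl
    intro k _
    ring
  rw [h1]
  ring

lemma IsCPl.smul {H : ℕ} {a L : ℝ} {f : ℝ → ℝ} (t : ℝ) (hf : IsCPl H a L f) :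
    IsCPl H (t * a) (|t| * L) (fun x => t * f x) := by
  obtain ⟨c, hc0, hcp, hc⟩ := hf
  refine ⟨fun k => t * c k, by beta_reduce; rw [hc0], ?_, ?_⟩
  · have h1 : ∑ k ∈ range (H + 1), |t * c k| = |t| * ∑ k ∈ range (H + 1), |c k| := by
      rw [mul_sum]
      exact sum_congr rfl fun k _ => abs_mul t (c k)
    rw [h1]
    exact mul_le_mul_of_nonneg_left hcp (abs_nonneg t)
  intro x
  beta_reduce
  rw [← hc x]
  unfold cosPoly
  rw [mul_add, mul_sum]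
  congr 1
  apply sum_congr rfl
  intro k _
  ring

lemma IsCPl.const (H : ℕ) (a : ℝ) : IsCPl H a |a| (fun _ => a) := by
  refine ⟨fun k => if k = 0 then a else 0, by simp, ?_, ?_⟩
  · rw [Finset.sum_eq_single 0]
    · simp
    · intro k _ hk
      beta_reduce
      rw [if_neg hk, abs_zero]
    · intro h
      exact absurd (mem_range.mpr (Nat.succ_pos H)) h
  intro x
  unfold cosPoly
  simp only [if_true]
  rw [Finset.sum_eq_zero]
  · simp
  · intro k hk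
    rw [mem_Icc] at hk
    rw [if_neg (by omega)]
    simp

lemma IsCPl.sum {H : ℕ} {ι : Type*} (s : Finset ι) (a L : ι → ℝ) (f : ι → ℝ → ℝ)
    (h : ∀ i ∈ s, IsCPl H (a i) (L i) (f i)) :
    IsCPl H (∑ i ∈ s, a i) (∑ i ∈ s, L i) (fun x => ∑ i ∈ s, f i x) := by
  classical
  induction s using Finset.induction_on with
  | empty => simpa using IsCPl.const H 0
  | insert i s hi ih =>
    have h1 := (h i (mem_insert_self _ _)).add (ih (fun j hj => h j (mem_insert_of_mem hj)))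
    rw [Finset.sum_insert hi, Finset.sum_insert hi]
    have h2 : (fun x => ∑ j ∈ insert i s, f j x) = fun x => f i x + ∑ j ∈ s, f j x := by
      funext x
      rw [Finset.sum_insert hi]
    rw [h2]
    exact h1

private lemma Sharp_cos (H m : ℕ) (h1 : 1 ≤ m) (h2 : m ≤ H) :
    IsCPl H 0 1 (fun x => Real.cos (2 * Real.pi * (m : ℝ) ^ 2 * x)) := by
  refine ⟨fun k => if k = m then 1 else 0, by simp; omega, ?_, ?_⟩
  · rw [Finset.sum_eq_single m]
    · simp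
    · intro k _ hk
      beta_reduce
      rw [if_neg hk, abs_zero]
    · intro h
      exact absurd (mem_range.mpr (by omega)) h
  intro x
  unfold cosPoly
  beta_reduce
  rw [if_neg (by omega), Finset.sum_eq_single m]
  · simp
  · intro k _ hk
    rw [if_neg hk, zero_mul]
  · intro hm
    exact absurd (mem_Icc.mpr ⟨h1, h2⟩) hm

lemma IsCPl.congr {H : ℕ} {a b L M : ℝ} {f g : ℝ → ℝ} (hf : IsCPl H a L f) (hab : a = b)
    (hLM : L ≤ M) (hfg : ∀ x, f x = g x) : IsCPl H b M g := by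
  obtain ⟨c, hc0, hcp, hc⟩ := hf
  exact ⟨c, by rw [hc0, hab], hcp.trans hLM, fun x => by rw [hc, hfg]⟩

/-- a Gaussian sum -/
private lemma Sharp_gauss (M : ℝ) (hM : 0 < M) (N : ℕ) :
    ∑ k ∈ Icc 1 N, Real.exp (-(Real.pi * (k : ℝ) ^ 2 / M ^ 2)) ≤ 3 * M := by
  have h1 : ∀ k ∈ Icc 1 N, Real.exp (-(Real.pi * (k : ℝ) ^ 2 / M ^ 2)) ≤
      3 * Real.exp (-(1 / M)) ^ k := by
    intro k _
    have h2 : Real.exp (-(Real.pi * (k : ℝ) ^ 2 / M ^ 2)) ≤ Real.exp (1 + (k : ℝ) * (-(1 / M))) := by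
      apply Real.exp_le_exp.mpr
      have h3 : (k : ℝ) / M - 1 ≤ Real.pi * ((k : ℝ) / M) ^ 2 := by
        have hp := Real.pi_gt_three
        have h4 : 0 ≤ ((k : ℝ) / M) ^ 2 := sq_nonneg _
        nlinarith [sq_nonneg ((k : ℝ) / M - 1)]
      have h5 : Real.pi * (k : ℝ) ^ 2 / M ^ 2 = Real.pi * ((k : ℝ) / M) ^ 2 := by
        rw [div_pow]
        ring
      rw [h5]
      have h6 : (k : ℝ) * (-(1 / M)) = -((k : ℝ) / M) := by ring
      rw [h6]
      linarith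
    refine h2.trans ?_
    rw [Real.exp_add, ← Real.exp_nat_mul]
    exact mul_le_mul_of_nonneg_right (by linarith [Real.exp_one_lt_d9]) (Real.exp_pos _).le
  refine (sum_le_sum h1).trans ?_
  rw [← mul_sum]
  refine mul_le_mul_of_nonneg_left ?_ (by norm_num)
  set q : ℝ := Real.exp (-(1 / M)) with hq
  have hq0 : 0 < q := Real.exp_pos _
  have hq1 : q < 1 := by
    rw [hq, Real.exp_lt_one_iff]
    have : 0 < 1 / M := by positivity
    linarith
  have h7 : ∑ k ∈ Icc 1 N, q ^ k ≤ q / (1 - q) := by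
    have h8 : ∀ n : ℕ, (∑ k ∈ Icc 1 n, q ^ k) * (1 - q) = q - q ^ (n + 1) := by
      intro n
      induction n with
      | zero => simp
      | succ n ih =>
        rw [Finset.sum_Icc_succ_top (by omega), add_mul, ih]
        ring
    rw [le_div_iff₀ (by linarith), h8 N]
    have := pow_pos hq0 (N + 1)
    linarith
  have h9 : q / (1 - q) ≤ M := by
    have h10 : q * (1 + 1 / M) ≤ 1 := by
      have h11 : 1 / M + 1 ≤ Real.exp (1 / M) := Real.add_one_le_exp _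
      have h12 : q * Real.exp (1 / M) = 1 := by
        rw [hq, ← Real.exp_add]
        simp
      calc q * (1 + 1 / M) ≤ q * Real.exp (1 / M) :=
            mul_le_mul_of_nonneg_left (by linarith) hq0.le
        _ = 1 := h12
    rw [div_le_iff₀ (by linarith)]
    have h13 : q * (M + 1) ≤ M := by
      have h14 : q * (1 + 1 / M) * M ≤ 1 * M := mul_le_mul_of_nonneg_right h10 hM.le
      have h15 : q * (1 + 1 / M) * M = q * (M + 1) := by
        field_simp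
      linarith
    linarith
  exact h7.trans h9

lemma IsCPl.ThN_scaled (H d : ℕ) (hd : 1 ≤ d) (M : ℝ) (hM : 0 < M) :
    IsCPl H 1 (1 + 6 * M) (fun x => ThN M (H / d) ((d : ℝ) ^ 2 * x)) := by
  have h1 : IsCPl H (∑ k ∈ Icc 1 (H / d), (2 * Real.exp (-(Real.pi * (k : ℝ) ^ 2 / M ^ 2))) * 0)
      (∑ k ∈ Icc 1 (H / d), |2 * Real.exp (-(Real.pi * (k : ℝ) ^ 2 / M ^ 2))| * 1)
      (fun x => ∑ k ∈ Icc 1 (H / d), (2 * Real.exp (-(Real.pi * (k : ℝ) ^ 2 / M ^ 2))) *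
        Real.cos (2 * Real.pi * ((k * d : ℕ) : ℝ) ^ 2 * x)) := by
    apply IsCPl.sum
    intro k hk
    rw [mem_Icc] at hk
    apply IsCPl.smul
    apply Sharp_cos
    · exact Nat.mul_pos hk.1 hd
    · calc k * d ≤ (H / d) * d := Nat.mul_le_mul_right d hk.2
        _ ≤ H := Nat.div_mul_le_self H d
  refine ((IsCPl.const H 1).add h1).congr (by simp) ?_ ?_
  · have h2 : ∑ k ∈ Icc 1 (H / d), |2 * Real.exp (-(Real.pi * (k : ℝ) ^ 2 / M ^ 2))| * 1 =
        2 * ∑ k ∈ Icc 1 (H / d), Real.exp (-(Real.pi * (k : ℝ) ^ 2 / M ^ 2)) := by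
      rw [mul_sum]
      refine sum_congr rfl fun k _ => ?_
      rw [mul_one, abs_of_pos (by positivity)]
    rw [h2, abs_one]
    have h3 := Sharp_gauss M hM (H / d)
    linarith
  intro x
  unfold ThN
  congr 1
  apply sum_congr rfl
  intro k _
  congr 2
  push_cast
  ring

private lemma Sharp_bdd (H : ℕ) (A : ℝ) : BddBelow {a : ℝ | ∃ c : ℕ → ℝ, Admissible H c ∧
    ∑ k ∈ Finset.range (H + 1), |c k| ≤ A ∧ c 0 = a} := by
  refine (delta_bddBelow H).mono ?_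
  rintro a ⟨c, h1, -, h2⟩
  exact ⟨c, h1, h2⟩

theorem deltaL1_le_of_IsCPl (H : ℕ) (a L ε A : ℝ) (f : ℝ → ℝ) (hf : IsCPl H a L f) (hε : 0 ≤ ε)
    (hpos : ∀ x, -ε ≤ f x) (h0 : 1 / 2 ≤ f 0) (hA : 2 * (L + ε) ≤ A) :
    deltaL1 A H ≤ 2 * (|a| + ε) := by
  have hs : 0 < f 0 + ε := by linarith
  have h1 := ((hf.add (IsCPl.const H ε)).smul (1 / (f 0 + ε)))
  obtain ⟨c, hc0, hcp, hc⟩ := h1
  have h2 : Admissible H c := by
    refine ⟨?_, ?_⟩
    · intro x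
      rw [hc x]
      apply mul_nonneg (by positivity)
      linarith [hpos x]
    · rw [hc 0]
      field_simp
  have h6 : 1 / (f 0 + ε) ≤ 2 := by
    rw [div_le_iff₀ hs]
    linarith
  have hL : 0 ≤ L := by
    obtain ⟨c', -, hcp', -⟩ := hf
    exact (sum_nonneg fun k _ => abs_nonneg _).trans hcp'
  have h7 : ∑ k ∈ range (H + 1), |c k| ≤ A := by
    refine hcp.trans (le_trans ?_ hA)
    rw [abs_of_nonneg (by positivity), abs_of_nonneg hε]
    exact mul_le_mul_of_nonneg_right h6 (by positivity)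
  have h3 : deltaL1 A H ≤ c 0 := by
    unfold deltaL1
    apply csInf_le (Sharp_bdd H A)
    exact ⟨c, h2, h7, rfl⟩
  refine h3.trans ?_
  rw [hc0]
  have h4 : a + ε ≤ |a| + ε := by linarith [le_abs_self a]
  have h5 : 0 ≤ |a| + ε := by positivity
  calc 1 / (f 0 + ε) * (a + ε) ≤ 1 / (f 0 + ε) * (|a| + ε) :=
        mul_le_mul_of_nonneg_left h4 (by positivity)
    _ ≤ 2 * (|a| + ε) := mul_le_mul_of_nonneg_right h6 h5

private lemma Sharp_compare (VS : Finset ℕ) (w : ℕ → ℝ) (W : ℝ) (hWs : ∑ d ∈ VS, |w d| ≤ W)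
    (E G : ℕ → ℂ) (η : ℝ) (hη : 0 ≤ η) (hEG : ∀ d ∈ VS, ‖E d - G d‖ ≤ η) :
    ‖∑ d ∈ VS, ((w d : ℝ) : ℂ) * E d - ∑ d ∈ VS, ((w d : ℝ) : ℂ) * G d‖ ≤ W * η := by
  rw [← sum_sub_distrib]
  have h1 : ∀ d ∈ VS, ‖((w d : ℝ) : ℂ) * E d - ((w d : ℝ) : ℂ) * G d‖ ≤ |w d| * η := by
    intro d hd
    rw [← mul_sub, norm_mul, Complex.norm_real, Real.norm_eq_abs]
    exact mul_le_mul_of_nonneg_left (hEG d hd) (abs_nonneg _)
  refine (norm_sum_le _ _).trans ((sum_le_sum h1).trans ?_)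
  rw [← sum_mul]
  exact mul_le_mul_of_nonneg_right hWs hη

private lemma Sharp_errC_ge {σ : ℝ} {J : ℕ} {X B D : ℝ} (hX : 0 < X) {d : ℝ} (hdD : d ≤ D) :
    J * (7 * Real.sqrt (d * Real.exp J / X)) + 2 * (J * Real.sqrt (2 / B)) +
      J * (Real.exp ((J : ℝ) / 2) / Real.sqrt B + Real.exp (-(σ * J / 2))) ≤ errC σ J X B D := by
  unfold errC
  have h1 : Real.sqrt (d * Real.exp J / X) ≤ Real.sqrt (D * Real.exp J / X) := by
    refine Real.sqrt_le_sqrt ?_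
    exact div_le_div_of_nonneg_right (mul_le_mul_of_nonneg_right hdD (Real.exp_pos _).le) hX.le
  have h2 : (J : ℝ) * (7 * Real.sqrt (d * Real.exp J / X)) ≤
      J * (7 * Real.sqrt (D * Real.exp J / X)) :=
    mul_le_mul_of_nonneg_left (by linarith) (Nat.cast_nonneg J)
  linarith

private lemma Sharp_errC_nonneg {σ : ℝ} {J : ℕ} {X B D : ℝ} : 0 ≤ errC σ J X B D := by
  unfold errC
  positivity

private lemma Sharp_sum_le (σ : ℝ) (hσ : 0 ≤ σ) (J : ℕ) :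
    ∑ m ∈ range J, Real.exp (-(σ * m)) ≤ J := by
  calc ∑ m ∈ range J, Real.exp (-(σ * m)) ≤ ∑ m ∈ range J, (1 : ℝ) := by
        refine sum_le_sum fun m _ => ?_
        rw [Real.exp_le_one_iff, neg_nonpos]
        positivity
    _ = J := by simp

private lemma Sharp_norm_re {a b : ℂ} {c : ℝ} (h : ‖a - b‖ ≤ c) : b.re - c ≤ a.re := by
  have h1 := abs_le.1 ((Complex.abs_re_le_norm (a - b)).trans h)
  rw [Complex.sub_re] at h1
  linarith [h1.1]

private lemma Sharp_mul (VS : Finset ℕ) (w : ℕ → ℝ) (c : ℂ) (g : ℕ → ℂ) :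
    ∑ d ∈ VS, ((w d : ℝ) : ℂ) * (c * g d) = c * ∑ d ∈ VS, ((w d : ℝ) : ℂ) * g d := by
  rw [mul_sum]
  refine sum_congr rfl fun d _ => ?_
  ring

/-- as `circle_sharp`. -/
private theorem Sharp_circle (VS : Finset ℕ) (hne : ∀ v ∈ VS, v ≠ 0) (w : ℕ → ℝ) (W : ℝ)
    (hWs : ∑ d ∈ VS, |w d| ≤ W) (σ : ℝ) (hσ : 0 ≤ σ) (J : ℕ)
    (X B D Lb : ℝ) (hX : 0 < X) (hB : 1 ≤ B) (hD : ∀ d ∈ VS, (d : ℝ) ≤ D)
    (hdX : B ^ 2 * D * Real.exp J ≤ X)
    (hsep : ∀ d₁ ∈ VS, ∀ d₂ ∈ VS, ∃ Lm : ℕ, Lm ≠ 0 ∧ d₁ ∣ Lm ∧ d₂ ∣ Lm ∧ 2 * B ^ 3 * (Lm : ℝ) ^ 2 < X ^ 2)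
    (hLb : 0 ≤ Lb)
    (hloc : ∀ r : ℚ, (r.den : ℝ) ≤ B * D ^ 2 → ∀ u : ℝ, |u| ≤ B →
      -Lb ≤ (KK σ J u * ∑ d ∈ VS, ((w d : ℝ) : ℂ) * gG ((d : ℚ) ^ 2 * r)).re) (x : ℝ) :
    -(Lb + W * errC σ J X B D) ≤ (∑ d ∈ VS, ((w d : ℝ) : ℂ) * ED σ J X d x).re := by
  have hB0 : (0 : ℝ) < B := by linarith
  have hpos : ∀ d ∈ VS, 1 ≤ d := fun d hd => Nat.one_le_iff_ne_zero.2 (hne d hd)
  have hdX' : ∀ d ∈ VS, B ^ 2 * d * Real.exp J ≤ X := by
    intro d hd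
    refine le_trans ?_ hdX
    refine mul_le_mul_of_nonneg_right ?_ (Real.exp_pos _).le
    exact mul_le_mul_of_nonneg_left (hD d hd) (by positivity)
  have hs2 : 0 ≤ (J : ℝ) * Real.sqrt (2 / B) := by positivity
  have hs3 : 0 ≤ (J : ℝ) * (Real.exp ((J : ℝ) / 2) / Real.sqrt B + Real.exp (-(σ * J / 2))) := by
    positivity
  by_cases hgood : ∃ d₀ ∈ VS, ∃ r' : ℚ, (r'.den : ℝ) ≤ B ∧
      |(d₀ : ℝ) ^ 2 * x - r'| * (X / d₀) ^ 2 ≤ B
  · obtain ⟨d₀, hd₀, r₀, hr₀, hx₀⟩ := hgood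
    set r : ℚ := r₀ / (d₀ : ℚ) ^ 2 with hr
    have hd₀' : (0 : ℝ) < d₀ := by exact_mod_cast hpos d₀ hd₀
    set u : ℝ := (x - r) * X ^ 2 with hu
    have hrR : (r : ℝ) = (r₀ : ℝ) / (d₀ : ℝ) ^ 2 := by
      rw [hr]
      push_cast
      ring
    have hu' : |u| ≤ B := by
      rw [hu, abs_mul, abs_of_nonneg (by positivity : (0 : ℝ) ≤ X ^ 2), hrR]
      have e : (d₀ : ℝ) ^ 2 * x - r₀ = (d₀ : ℝ) ^ 2 * (x - (r₀ : ℝ) / (d₀ : ℝ) ^ 2) := by
        field_simp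
      rw [e, abs_mul, abs_of_pos (by positivity : (0 : ℝ) < (d₀ : ℝ) ^ 2)] at hx₀
      have e2 : (d₀ : ℝ) ^ 2 * |x - (r₀ : ℝ) / (d₀ : ℝ) ^ 2| * (X / d₀) ^ 2 =
          |x - (r₀ : ℝ) / (d₀ : ℝ) ^ 2| * X ^ 2 := by
        field_simp
      rwa [e2] at hx₀
    have hrden : (r.den : ℝ) ≤ B * D ^ 2 := by
      have h3 : r.den ∣ r₀.den * d₀ ^ 2 := by
        have h4 : r = r₀ * (1 / (d₀ : ℚ) ^ 2) := by rw [hr]; ring
        have h5 := Rat.mul_den_dvd r₀ (1 / (d₀ : ℚ) ^ 2)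
        rw [← h4] at h5
        have h6 : (1 / (d₀ : ℚ) ^ 2).den = d₀ ^ 2 := by
          have h7 : (1 / (d₀ : ℚ) ^ 2) = ((d₀ ^ 2 : ℕ) : ℚ)⁻¹ := by push_cast; rw [one_div]
          rw [h7, Rat.inv_natCast_den_of_pos (pow_pos (hpos d₀ hd₀) 2)]
        rwa [h6] at h5
      have h8 : r.den ≤ r₀.den * d₀ ^ 2 :=
        Nat.le_of_dvd (Nat.mul_pos r₀.den_pos (pow_pos (hpos d₀ hd₀) 2)) h3
      have h9 : (r.den : ℝ) ≤ r₀.den * (d₀ : ℝ) ^ 2 := by exact_mod_cast h8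
      refine h9.trans (mul_le_mul hr₀ ?_ (by positivity) hB0.le)
      exact pow_le_pow_left₀ hd₀'.le (hD d₀ hd₀) 2
    have hcmp : ∀ d ∈ VS, ‖ED σ J X d x - KK σ J u * gG ((d : ℚ) ^ 2 * r)‖ ≤ errC σ J X B D := by
      intro d hd
      have hd' : (0 : ℝ) < d := by exact_mod_cast hpos d hd
      have herr := Sharp_errC_ge (σ := σ) (J := J) (B := B) hX (hD d hd)
      have hbu : ∀ s : ℝ, s = (d : ℝ) ^ 2 * (x - r) → s * (X / d) ^ 2 = u := by
        intro s hs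
        rw [hs, hu]
        field_simp
      by_cases hdg : ∃ r' : ℚ, (r'.den : ℝ) ≤ B ∧ |(d : ℝ) ^ 2 * x - r'| * (X / d) ^ 2 ≤ B
      · obtain ⟨r', hr'1, hr'2⟩ := hdg
        obtain ⟨Lm, hLm0, hLm1, hLm2, hLm3⟩ := hsep d hd d₀ hd₀
        have hsp := separation X B hX hB d d₀ Lm (hpos d hd) (hpos d₀ hd₀) hLm1 hLm2 hLm0 hLm3 x
          r' r₀ hr'1 hr₀ hr'2 hx₀
        have hdq : (d : ℚ) ≠ 0 := by
          have := hpos d hd
          exact_mod_cast (by omega : d ≠ 0)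
        have hr'eq : r' = (d : ℚ) ^ 2 * r := by
          rw [hr, ← hsp]
          field_simp
        have hβ : (d : ℝ) ^ 2 * x = r' + ((d : ℝ) ^ 2 * x - r') := by ring
        have hb2 : |(d : ℝ) ^ 2 * x - r'| * (X / d) ^ 2 ≤ B := hr'2
        have hg := ED_good σ hσ J X B hX hB d (hpos d hd) (hdX' d hd) x r'
          ((d : ℝ) ^ 2 * x - r') hβ hr'1 hb2
        have e : ((d : ℝ) ^ 2 * x - r') * (X / d) ^ 2 = u := by
          refine hbu _ ?_
          rw [hr'eq]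
          push_cast
          ring
        rw [e, hr'eq] at hg
        linarith
      · push Not at hdg
        have hb := ED_bad σ hσ J X B hX hB d (hpos d hd) (hdX' d hd) x hdg
        have hden : B < (((d : ℚ) ^ 2 * r).den : ℝ) := by
          by_contra hcon
          rw [not_lt] at hcon
          have h10 := hdg ((d : ℚ) ^ 2 * r) hcon
          have e : (d : ℝ) ^ 2 * x - (((d : ℚ) ^ 2 * r : ℚ) : ℝ) = (d : ℝ) ^ 2 * (x - r) := by
            push_cast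
            ring
          rw [e] at h10
          have h11 := hbu _ rfl
          have h12 : |(d : ℝ) ^ 2 * (x - r)| * (X / d) ^ 2 = |u| := by
            rw [← h11, abs_mul ((d : ℝ) ^ 2 * (x - r)) ((X / d) ^ 2),
              abs_of_nonneg (by positivity : (0 : ℝ) ≤ (X / d) ^ 2)]
          rw [h12] at h10
          linarith
        have hG : ‖KK σ J u * gG ((d : ℚ) ^ 2 * r)‖ ≤ J * Real.sqrt (2 / B) := by
          rw [norm_mul]
          refine mul_le_mul ((KK_norm_le σ J u).trans (Sharp_sum_le σ hσ J)) ?_ (norm_nonneg _)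
            (Nat.cast_nonneg J)
          refine (norm_gG_le _).trans (Real.sqrt_le_sqrt ?_)
          exact div_le_div_of_nonneg_left (by norm_num) hB0 hden.le
        calc ‖ED σ J X d x - KK σ J u * gG ((d : ℚ) ^ 2 * r)‖
            ≤ ‖ED σ J X d x‖ + ‖KK σ J u * gG ((d : ℚ) ^ 2 * r)‖ := norm_sub_le _ _
          _ ≤ errC σ J X B D := by linarith
    have hF := Sharp_compare VS w W hWs (fun d => ED σ J X d x)
      (fun d => KK σ J u * gG ((d : ℚ) ^ 2 * r)) (errC σ J X B D) Sharp_errC_nonneg hcmp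
    rw [Sharp_mul VS w (KK σ J u) fun d => gG ((d : ℚ) ^ 2 * r)] at hF
    have h13 := Sharp_norm_re hF
    have h14 := hloc r hrden u hu'
    linarith
  · push Not at hgood
    have hcmp : ∀ d ∈ VS, ‖ED σ J X d x - 0‖ ≤ errC σ J X B D := by
      intro d hd
      have herr := Sharp_errC_ge (σ := σ) (J := J) (B := B) hX (hD d hd)
      have hb := ED_bad σ hσ J X B hX hB d (hpos d hd) (hdX' d hd) x (hgood d hd)
      rw [sub_zero]
      linarith
    have hF := Sharp_compare VS w W hWs (fun d => ED σ J X d x) (fun _ => 0) (errC σ J X B D)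
      Sharp_errC_nonneg hcmp
    have h15 : ∑ d ∈ VS, ((w d : ℝ) : ℂ) * (0 : ℂ) = 0 := by
      simp
    rw [h15] at hF
    have h13 := Sharp_norm_re hF
    rw [Complex.zero_re] at h13
    linarith

private theorem Sharp_zero (VS : Finset ℕ) (hne : ∀ v ∈ VS, v ≠ 0) (w : ℕ → ℝ) (W : ℝ)
    (hWs : ∑ d ∈ VS, |w d| ≤ W) (hw1 : 1 ≤ ∑ d ∈ VS, w d) (σ : ℝ)
    (hσ : 0 ≤ σ) (J : ℕ) (hJ : 1 ≤ J) (X B D : ℝ) (hX : 0 < X) (hB : 1 ≤ B)
    (hD : ∀ d ∈ VS, (d : ℝ) ≤ D) (hdX : B ^ 2 * D * Real.exp J ≤ X) :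
    1 - W * errC σ J X B D ≤ (∑ d ∈ VS, ((w d : ℝ) : ℂ) * ED σ J X d 0).re := by
  have hpos : ∀ d ∈ VS, 1 ≤ d := fun d hd => Nat.one_le_iff_ne_zero.2 (hne d hd)
  have hdX' : ∀ d ∈ VS, B ^ 2 * d * Real.exp J ≤ X := by
    intro d hd
    refine le_trans ?_ hdX
    refine mul_le_mul_of_nonneg_right ?_ (Real.exp_pos _).le
    exact mul_le_mul_of_nonneg_left (hD d hd) (by positivity)
  have hs2 : 0 ≤ (J : ℝ) * Real.sqrt (2 / B) := by positivity
  have hs3 : 0 ≤ (J : ℝ) * (Real.exp ((J : ℝ) / 2) / Real.sqrt B + Real.exp (-(σ * J / 2))) := by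
    positivity
  have hg0 : gG 0 = 1 := by
    have := gG_int 0
    simpa using this
  have hcmp : ∀ d ∈ VS, ‖ED σ J X d 0 - KK σ J 0‖ ≤ errC σ J X B D := by
    intro d hd
    have herr := Sharp_errC_ge (σ := σ) (J := J) (B := B) hX (hD d hd)
    have hg := ED_good σ hσ J X B hX hB d (hpos d hd) (hdX' d hd) 0 0 0 (by simp) (by simpa using hB)
      (by simp; linarith)
    rw [zero_mul, hg0, mul_one] at hg
    linarith
  have hF := Sharp_compare VS w W hWs (fun d => ED σ J X d 0)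
    (fun _ => KK σ J 0) (errC σ J X B D) Sharp_errC_nonneg hcmp
  have h5 : KK σ J 0 = ((∑ m ∈ range J, Real.exp (-(σ * m)) : ℝ) : ℂ) := by
    unfold KK
    have h6 : om 0 = 0 := by simp [om]
    simp only [zero_mul, h6, Complex.exp_zero, mul_one]
    rw [Complex.ofReal_sum]
  have h7 : (1 : ℝ) ≤ ∑ m ∈ range J, Real.exp (-(σ * m)) := by
    have h8 : Real.exp (-(σ * ((0 : ℕ) : ℝ))) ≤ ∑ m ∈ range J, Real.exp (-(σ * m)) :=
      single_le_sum (f := fun m : ℕ => Real.exp (-(σ * (m : ℝ)))) (fun m _ => (Real.exp_pos _).le)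
        (mem_range.2 hJ)
    simpa using h8
  have h3 : ∑ d ∈ VS, ((w d : ℝ) : ℂ) * KK σ J 0 =
      (((∑ d ∈ VS, w d) * ∑ m ∈ range J, Real.exp (-(σ * m)) : ℝ) : ℂ) := by
    rw [← sum_mul, h5, Complex.ofReal_mul, Complex.ofReal_sum VS]
  rw [h3] at hF
  have h9 := Sharp_norm_re hF
  rw [Complex.ofReal_re] at h9
  have h10 : 1 ≤ (∑ d ∈ VS, w d) * ∑ m ∈ range J, Real.exp (-(σ * m)) := by
    calc (1 : ℝ) = 1 * 1 := by ring
      _ ≤ _ := mul_le_mul hw1 h7 zero_le_one (by linarith)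
  linarith

/-- the truncation at one `d` -/
private lemma Sharp_EDN (σ : ℝ) (hσ : 0 ≤ σ) (J : ℕ) (X D : ℝ) (hX : 0 < X) (d : ℕ) (hd1 : 1 ≤ d)
    (hdD : (d : ℝ) ≤ D) (hdX : D * Real.exp J ≤ X) (H : ℕ) (x : ℝ) :
    |(ED σ J X d x).re - EDN σ J X H d x| ≤ errT J X H := by
  rw [Cons_ED_re]
  unfold EDN errT
  rw [← sum_sub_distrib]
  refine (abs_sum_le_sum_abs _ _).trans ?_
  have h3 : ∀ m ∈ range J, |Real.exp (-(σ * m)) *
      (((d : ℝ) / Xm X m) * (Th (Xm X m / d) ((d : ℝ) ^ 2 * x)).re) -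
      Real.exp (-(σ * m)) *
      (((d : ℝ) / Xm X m) * ThN (Xm X m / d) (H / d) ((d : ℝ) ^ 2 * x))| ≤
      2 * (1 + X) * Real.exp (-(Real.pi * ((H : ℝ) / X) ^ 2)) := by
    intro m hm
    have hp := CirA_Xm_pos X hX m
    have hge := CirA_le_Xm X hX m J (mem_range.mp hm)
    have hw := CirA_w_le_one σ hσ m
    have hdM : (d : ℝ) ≤ Xm X m := by
      have h4 : Real.exp J * (d : ℝ) ≤ Real.exp J * Xm X m := by
        calc Real.exp J * (d : ℝ) ≤ Real.exp J * D :=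
              mul_le_mul_of_nonneg_left hdD (Real.exp_pos _).le
          _ = D * Real.exp J := by ring
          _ ≤ X := hdX
          _ ≤ _ := hge
      exact le_of_mul_le_mul_left h4 (Real.exp_pos _)
    have h5 := Cons_term X hX m d hd1 hdM H x
    rw [← mul_sub, ← mul_sub, abs_mul, abs_mul, abs_of_pos (Real.exp_pos _),
      abs_of_nonneg (by positivity : (0 : ℝ) ≤ (d : ℝ) / Xm X m)]
    calc Real.exp (-(σ * m)) * ((d : ℝ) / Xm X m *
          |(Th (Xm X m / d) ((d : ℝ) ^ 2 * x)).re -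
            ThN (Xm X m / d) (H / d) ((d : ℝ) ^ 2 * x)|)
        ≤ 1 * ((d : ℝ) / Xm X m *
          |(Th (Xm X m / d) ((d : ℝ) ^ 2 * x)).re -
            ThN (Xm X m / d) (H / d) ((d : ℝ) ^ 2 * x)|) :=
          mul_le_mul_of_nonneg_right hw (by positivity)
      _ ≤ _ := by
          rw [one_mul]
          exact h5
  refine (sum_le_sum h3).trans ?_
  rw [sum_const, nsmul_eq_mul, card_range]

private lemma Sharp_trunc (VS : Finset ℕ) (hne : ∀ v ∈ VS, v ≠ 0) (w : ℕ → ℝ) (W : ℝ)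
    (hWs : ∑ d ∈ VS, |w d| ≤ W) (σ : ℝ) (hσ : 0 ≤ σ) (J : ℕ) (X D : ℝ) (hX : 0 < X)
    (hD : ∀ d ∈ VS, (d : ℝ) ≤ D) (hdX : D * Real.exp J ≤ X) (H : ℕ) (x : ℝ) :
    |(∑ d ∈ VS, ((w d : ℝ) : ℂ) * ED σ J X d x).re - ∑ d ∈ VS, w d * EDN σ J X H d x| ≤
      W * errT J X H := by
  have hT : 0 ≤ errT J X H := by
    unfold errT
    positivity
  have h1 : (∑ d ∈ VS, ((w d : ℝ) : ℂ) * ED σ J X d x).re = ∑ d ∈ VS, w d * (ED σ J X d x).re := by
    rw [Complex.re_sum]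
    exact sum_congr rfl fun d _ => Complex.re_ofReal_mul _ _
  rw [h1, ← sum_sub_distrib]
  refine (abs_sum_le_sum_abs _ _).trans ?_
  have h2 : ∀ d ∈ VS, |w d * (ED σ J X d x).re - w d * EDN σ J X H d x| ≤ |w d| * errT J X H := by
    intro d hd
    rw [← mul_sub, abs_mul]
    exact mul_le_mul_of_nonneg_left (Sharp_EDN σ hσ J X D hX d
      (Nat.one_le_iff_ne_zero.2 (hne d hd)) (hD d hd) hdX H x) (abs_nonneg _)
  refine (sum_le_sum h2).trans ?_
  rw [← sum_mul]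
  exact mul_le_mul_of_nonneg_right hWs hT

/-- the constant term -/
private noncomputable def Sharp_c (VS : Finset ℕ) (w : ℕ → ℝ) (σ : ℝ) (J : ℕ) (X : ℝ) : ℝ :=
  ∑ d ∈ VS, w d * ∑ m ∈ range J, Real.exp (-(σ * m)) * (((d : ℝ) / Xm X m) * 1)

private lemma Sharp_c_le (VS : Finset ℕ) (w : ℕ → ℝ) (W : ℝ)
    (hWs : ∑ d ∈ VS, |w d| ≤ W) (σ : ℝ) (hσ : 0 ≤ σ) (J : ℕ) (X D : ℝ) (hX : 0 < X)
    (hD : ∀ d ∈ VS, (d : ℝ) ≤ D) (hD1 : 1 ≤ D) :
    |Sharp_c VS w σ J X| ≤ W * (J * (D * Real.exp J / X)) := by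
  unfold Sharp_c
  refine (abs_sum_le_sum_abs _ _).trans ?_
  have h2 : ∀ d ∈ VS, |w d * ∑ m ∈ range J, Real.exp (-(σ * m)) * (((d : ℝ) / Xm X m) * 1)| ≤
      |w d| * (J * (D * Real.exp J / X)) := by
    intro d hd
    rw [abs_mul]
    refine mul_le_mul_of_nonneg_left ?_ (abs_nonneg _)
    rw [abs_of_nonneg (by
        apply sum_nonneg
        intro m _
        have := CirA_Xm_pos X hX m
        positivity)]
    have h3 : ∀ m ∈ range J, Real.exp (-(σ * m)) * (((d : ℝ) / Xm X m) * 1) ≤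
        D * Real.exp J / X := by
      intro m hm
      have hp := CirA_Xm_pos X hX m
      have hge := CirA_le_Xm X hX m J (mem_range.mp hm)
      have hw := CirA_w_le_one σ hσ m
      have h4 : (d : ℝ) / Xm X m ≤ D * Real.exp J / X := by
        rw [div_le_div_iff₀ hp hX]
        calc (d : ℝ) * X ≤ D * (Real.exp J * Xm X m) :=
              mul_le_mul (hD d hd) hge hX.le (by linarith)
          _ = D * Real.exp J * Xm X m := by ring
      calc Real.exp (-(σ * m)) * (((d : ℝ) / Xm X m) * 1) ≤ 1 * (((d : ℝ) / Xm X m) * 1) :=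
            mul_le_mul_of_nonneg_right hw (by positivity)
        _ = (d : ℝ) / Xm X m := by ring
        _ ≤ _ := h4
    refine (sum_le_sum h3).trans ?_
    rw [sum_const, nsmul_eq_mul, card_range]
  refine (sum_le_sum h2).trans ?_
  rw [← sum_mul]
  exact mul_le_mul_of_nonneg_right hWs (by positivity)

private lemma Sharp_isCPl (VS : Finset ℕ) (hne : ∀ v ∈ VS, v ≠ 0) (w : ℕ → ℝ) (W : ℝ)
    (hWs : ∑ d ∈ VS, |w d| ≤ W) (σ : ℝ) (J : ℕ) (X D : ℝ) (hX : 0 < X)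
    (hD : ∀ d ∈ VS, (d : ℝ) ≤ D) (hdX : D * Real.exp J ≤ X) (H : ℕ) :
    IsCPl H (Sharp_c VS w σ J X) (7 * W * ∑ m ∈ range J, Real.exp (-(σ * m)))
      (fun x => ∑ d ∈ VS, w d * EDN σ J X H d x) := by
  have h1 : IsCPl H (Sharp_c VS w σ J X)
      (∑ d ∈ VS, |w d| * ∑ m ∈ range J, Real.exp (-(σ * m)) * 7)
      (fun x => ∑ d ∈ VS, w d * EDN σ J X H d x) := by
    unfold Sharp_c EDN
    apply IsCPl.sum
    intro d hd
    apply IsCPl.smul
    apply IsCPl.sum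
    intro m hm
    have hd1 : 1 ≤ d := Nat.one_le_iff_ne_zero.2 (hne d hd)
    have hd0 : (0 : ℝ) < d := by exact_mod_cast hd1
    have hp := CirA_Xm_pos X hX m
    have hge := CirA_le_Xm X hX m J (mem_range.mp hm)
    have hdM : (d : ℝ) ≤ Xm X m := by
      have h4 : Real.exp J * (d : ℝ) ≤ Real.exp J * Xm X m := by
        calc Real.exp J * (d : ℝ) ≤ Real.exp J * D :=
              mul_le_mul_of_nonneg_left (hD d hd) (Real.exp_pos _).le
          _ = D * Real.exp J := by ring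
          _ ≤ X := hdX
          _ ≤ _ := hge
      exact le_of_mul_le_mul_left h4 (Real.exp_pos _)
    have hM : 0 < Xm X m / d := by positivity
    have h2 := ((IsCPl.ThN_scaled H d hd1 (Xm X m / d) hM).smul ((d : ℝ) / Xm X m)).smul
      (Real.exp (-(σ * m)))
    refine h2.congr rfl ?_ fun x => rfl
    rw [abs_of_pos (Real.exp_pos _), abs_of_pos (by positivity : (0 : ℝ) < (d : ℝ) / Xm X m)]
    refine mul_le_mul_of_nonneg_left ?_ (Real.exp_pos _).le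
    have h5 : (d : ℝ) / Xm X m * (1 + 6 * (Xm X m / d)) = (d : ℝ) / Xm X m + 6 := by
      field_simp
    have h6 : (d : ℝ) / Xm X m ≤ 1 := by
      rw [div_le_one hp]
      exact hdM
    rw [h5]
    linarith
  refine h1.congr rfl ?_ fun x => rfl
  rw [← sum_mul, ← sum_mul]
  have h2 : 0 ≤ ∑ m ∈ range J, Real.exp (-(σ * m)) := sum_nonneg fun m _ => (Real.exp_pos _).le
  calc (∑ d ∈ VS, |w d|) * ((∑ m ∈ range J, Real.exp (-(σ * m))) * 7)
      ≤ W * ((∑ m ∈ range J, Real.exp (-(σ * m))) * 7) :=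
        mul_le_mul_of_nonneg_right hWs (by positivity)
    _ = 7 * W * ∑ m ∈ range J, Real.exp (-(σ * m)) := by ring

/-- THE CIRCLE SIDE, signed weights. -/
theorem deltaL1_sharp (VS : Finset ℕ) (hne : ∀ v ∈ VS, v ≠ 0) (w : ℕ → ℝ) (W : ℝ)
    (hWs : ∑ d ∈ VS, |w d| ≤ W) (hw1 : 1 ≤ ∑ d ∈ VS, w d) (σ : ℝ)
    (hσ : 0 ≤ σ) (J : ℕ) (hJ : 1 ≤ J) (X B D Lb : ℝ) (hX : 0 < X) (hB : 1 ≤ B)
    (hD : ∀ d ∈ VS, (d : ℝ) ≤ D) (hD1 : 1 ≤ D) (hdX : B ^ 2 * D * Real.exp J ≤ X)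
    (hsep : ∀ d₁ ∈ VS, ∀ d₂ ∈ VS, ∃ Lm : ℕ, Lm ≠ 0 ∧ d₁ ∣ Lm ∧ d₂ ∣ Lm ∧ 2 * B ^ 3 * (Lm : ℝ) ^ 2 < X ^ 2)
    (hLb : 0 ≤ Lb)
    (hloc : ∀ r : ℚ, (r.den : ℝ) ≤ B * D ^ 2 → ∀ u : ℝ, |u| ≤ B →
      -Lb ≤ (KK σ J u * ∑ d ∈ VS, ((w d : ℝ) : ℂ) * gG ((d : ℚ) ^ 2 * r)).re) (H : ℕ)
    (hsm : W * (errC σ J X B D + errT J X H) ≤ 1 / 2) (A : ℝ)
    (hA : 2 * (7 * W * ∑ m ∈ range J, Real.exp (-(σ * m)) + Lb + 1) ≤ A) :
    deltaL1 A H ≤ 2 * (W * (J * (D * Real.exp J / X)) +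
      (Lb + W * (errC σ J X B D + errT J X H))) := by
  have hdX' : D * Real.exp J ≤ X := by
    refine le_trans ?_ hdX
    have h3 : 0 ≤ D * Real.exp J := by positivity
    nlinarith [mul_nonneg (by nlinarith : 0 ≤ B ^ 2 - 1) h3]
  have hC : 0 ≤ errC σ J X B D := Sharp_errC_nonneg
  have hT : 0 ≤ errT J X H := by
    unfold errT
    positivity
  have hW0 : 0 ≤ W := (sum_nonneg fun d _ => abs_nonneg _).trans hWs
  have h3 := deltaL1_le_of_IsCPl H (Sharp_c VS w σ J X)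
    (7 * W * ∑ m ∈ range J, Real.exp (-(σ * m)))
    (Lb + W * (errC σ J X B D + errT J X H)) A (fun x => ∑ d ∈ VS, w d * EDN σ J X H d x)
    (Sharp_isCPl VS hne w W hWs σ J X D hX hD hdX' H) (by positivity)
    (by
      intro x
      have h4 := Sharp_circle VS hne w W hWs σ hσ J X B D Lb hX hB hD hdX hsep hLb hloc x
      have h5 := (abs_le.mp (Sharp_trunc VS hne w W hWs σ hσ J X D hX hD hdX' H x)).2
      beta_reduce
      linarith)
    (by
      have h4 := Sharp_zero VS hne w W hWs hw1 σ hσ J hJ X B D hX hB hD hdX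
      have h5 := (abs_le.mp (Sharp_trunc VS hne w W hWs σ hσ J X D hX hD hdX' H 0)).2
      beta_reduce
      linarith)
    (by linarith)
  have h4 := Sharp_c_le VS w W hWs σ hσ J X D hX hD hD1
  linarith

end Pool.Agent.H.MP_b3c6db_nt
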