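import Pool.Agent.H.MP_b3c6db_nt.Defs

/-! Square-frequency cosine polynomials with bounded sum of the absolute values of the
coefficients. -/

namespace Pool.Agent.H.MP_b3c6db_nt

/-- `deltaL1 A H` is the infimum of the constant terms of the admissible polynomials whose
coefficients satisfy `|c 0| + |c 1| + ... + |c H| ≤ A`. -/
noncomputable def deltaL1 (A : ℝ) (H : ℕ) : ℝ :=
  sInf {a : ℝ | ∃ c : ℕ → ℝ, Admissible H c ∧ ∑ k ∈ Finset.range (H + 1), |c k| ≤ A ∧ c 0 = a}

end Pool.Agent.H.MP_b3c6db_nt
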