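import Pool.Agent.H.MP_b3c6db_nt.NC.Err

/-! The errors, with a power of `J` to spare. -/

set_option autoImplicit false

namespace Pool.Agent.H.MP_b3c6db_nt

open Finset Filter Topology

private lemma NLErr_ev : ∀ᶠ J : ℕ in atTop, 17 * (J : ℝ) ^ 5 * Real.exp (-(J / 1000)) ≤ 1 := by
  have h1 := Real.tendsto_pow_mul_exp_neg_atTop_nhds_zero 5
  have h2 : Tendsto (fun J : ℕ => (J : ℝ) / 1000) atTop atTop :=
    tendsto_natCast_atTop_atTop.atTop_div_const (by norm_num)
  have h3 := h1.comp h2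
  have h4 := h3.eventually (gt_mem_nhds (show (0 : ℝ) < 1 / (17 * 1000 ^ 5) by norm_num))
  filter_upwards [h4] with J hJ
  simp only [Function.comp] at hJ
  have h5 : 17 * (J : ℝ) ^ 5 * Real.exp (-(J / 1000)) =
      17 * 1000 ^ 5 * (((J : ℝ) / 1000) ^ 5 * Real.exp (-((J : ℝ) / 1000))) := by
    ring
  rw [h5]
  have h6 := mul_lt_mul_of_pos_left hJ (show (0 : ℝ) < 17 * 1000 ^ 5 by norm_num)
  refine h6.le.trans (le_of_eq ?_)
  norm_num

theorem err_small4 : ∀ᶠ J : ℕ in atTop, ∀ H : ℕ, Real.exp (10 * J) ≤ H → ∀ card : ℝ, 0 ≤ card →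
    card ≤ Real.exp (J / 8000) →
    card ^ 2 * (errC (1 / 400) J (Real.exp (5 * J)) (Real.exp (3 / 2 * J)) (Real.exp (J / 8000)) +
      errT J (Real.exp (5 * J)) H) ≤ 1 / (J : ℝ) ^ 4 ∧
    card ^ 2 * (J * (Real.exp (J / 8000) * Real.exp J / Real.exp (5 * J))) ≤ 1 / (J : ℝ) ^ 4 := by
  filter_upwards [NLErr_ev, eventually_ge_atTop 1] with J hJ hJ1 H hH card hc0 hc
  have hJ0 : (1 : ℝ) ≤ J := by exact_mod_cast hJ1
  have hJp : (0 : ℝ) < J := by linarith
  have hc2 : card ^ 2 ≤ Real.exp (J / 4000) := by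
    calc card ^ 2 ≤ Real.exp (J / 8000) ^ 2 := pow_le_pow_left₀ hc0 hc 2
      _ = Real.exp (J / 4000) := by
        rw [← Real.exp_nat_mul]
        congr 1
        push_cast
        ring
  have sq1 : ∀ t : ℝ, Real.sqrt (Real.exp t) = Real.exp (t / 2) := fun t => by
    rw [Real.sqrt_eq_rpow, ← Real.exp_mul]
    congr 1
    ring
  have e1 : Real.sqrt (Real.exp (J / 8000) * Real.exp J / Real.exp (5 * J)) ≤
      Real.exp (-(J / 800)) := by
    rw [← Real.exp_add, ← Real.exp_sub, sq1]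
    exact Real.exp_le_exp.2 (by linarith)
  have e2 : Real.sqrt (2 / Real.exp (3 / 2 * J)) ≤ 2 * Real.exp (-(J / 800)) := by
    have h1 : 2 / Real.exp (3 / 2 * J) ≤ 2 ^ 2 * Real.exp (-(3 / 2 * J)) := by
      rw [Real.exp_neg, div_eq_mul_inv]
      have := inv_pos.2 (Real.exp_pos (3 / 2 * (J : ℝ)))
      linarith
    refine (Real.sqrt_le_sqrt h1).trans ?_
    rw [Real.sqrt_mul (by norm_num), Real.sqrt_sq (by norm_num), sq1]
    have : Real.exp (-(3 / 2 * (J : ℝ)) / 2) ≤ Real.exp (-(J / 800)) :=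
      Real.exp_le_exp.2 (by linarith)
    linarith
  have e3 : Real.exp ((J : ℝ) / 2) / Real.sqrt (Real.exp (3 / 2 * J)) ≤ Real.exp (-(J / 800)) := by
    rw [sq1, ← Real.exp_sub]
    exact Real.exp_le_exp.2 (by linarith)
  have e4 : Real.exp (-(1 / 400 * (J : ℝ) / 2)) = Real.exp (-(J / 800)) := by
    congr 1
    ring
  have hE : 0 < Real.exp (-((J : ℝ) / 800)) := Real.exp_pos _
  have h1 : errC (1 / 400) J (Real.exp (5 * J)) (Real.exp (3 / 2 * J)) (Real.exp (J / 8000)) ≤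
      13 * (J * Real.exp (-(J / 800))) := by
    unfold errC
    rw [e4]
    have : (J : ℝ) * (7 * Real.sqrt (Real.exp (J / 8000) * Real.exp J / Real.exp (5 * J)) +
        2 * Real.sqrt (2 / Real.exp (3 / 2 * J)) +
        (Real.exp ((J : ℝ) / 2) / Real.sqrt (Real.exp (3 / 2 * J)) + Real.exp (-(J / 800)))) ≤
        J * (13 * Real.exp (-(J / 800))) := mul_le_mul_of_nonneg_left (by linarith) hJp.le
    linarith
  have h2 : errT J (Real.exp (5 * J)) H ≤ 4 * (J * Real.exp (-(J / 800))) := by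
    unfold errT
    have g1 : Real.exp (5 * J) ≤ (H : ℝ) / Real.exp (5 * J) := by
      rw [le_div_iff₀ (Real.exp_pos _), ← Real.exp_add]
      refine le_trans (Real.exp_le_exp.2 (by linarith)) hH
    have g2 : 10 * (J : ℝ) ≤ Real.pi * ((H : ℝ) / Real.exp (5 * J)) ^ 2 := by
      have g3 : Real.exp (5 * J) ^ 2 ≤ ((H : ℝ) / Real.exp (5 * J)) ^ 2 :=
        pow_le_pow_left₀ (Real.exp_pos _).le g1 2
      have g4 : Real.exp (5 * (J : ℝ)) ^ 2 = Real.exp (10 * J) := by
        rw [← Real.exp_nat_mul]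
        congr 1
        push_cast
        ring
      have g5 := Real.add_one_le_exp (10 * (J : ℝ))
      have g6 := Real.pi_gt_three
      rw [g4] at g3
      nlinarith
    have g7 : Real.exp (-(Real.pi * ((H : ℝ) / Real.exp (5 * J)) ^ 2)) ≤ Real.exp (-(10 * J)) :=
      Real.exp_le_exp.2 (by linarith)
    have g8 : 2 * (1 + Real.exp (5 * (J : ℝ))) ≤ 4 * Real.exp (5 * J) := by
      have := Real.one_le_exp (show (0 : ℝ) ≤ 5 * J by positivity)
      linarith
    have g9 : 2 * (1 + Real.exp (5 * (J : ℝ))) *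
        Real.exp (-(Real.pi * ((H : ℝ) / Real.exp (5 * J)) ^ 2)) ≤
        4 * Real.exp (5 * J) * Real.exp (-(10 * J)) :=
      mul_le_mul g8 g7 (Real.exp_pos _).le (by positivity)
    have g10 : 4 * Real.exp (5 * (J : ℝ)) * Real.exp (-(10 * J)) ≤ 4 * Real.exp (-(J / 800)) := by
      rw [mul_assoc, ← Real.exp_add]
      have : Real.exp (5 * (J : ℝ) + -(10 * J)) ≤ Real.exp (-(J / 800)) :=
        Real.exp_le_exp.2 (by linarith)
      linarith
    calc (J : ℝ) * (2 * (1 + Real.exp (5 * (J : ℝ))) *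
        Real.exp (-(Real.pi * ((H : ℝ) / Real.exp (5 * J)) ^ 2))) ≤
        J * (4 * Real.exp (-(J / 800))) := mul_le_mul_of_nonneg_left (g9.trans g10) hJp.le
      _ = 4 * (J * Real.exp (-(J / 800))) := by ring
  have h3 : (J : ℝ) * (Real.exp (J / 8000) * Real.exp J / Real.exp (5 * J)) ≤
      17 * (J * Real.exp (-(J / 800))) := by
    rw [← Real.exp_add, ← Real.exp_sub]
    have : Real.exp ((J : ℝ) / 8000 + J - 5 * J) ≤ Real.exp (-(J / 800)) :=
      Real.exp_le_exp.2 (by linarith)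
    nlinarith
  have key : ∀ z : ℝ, z ≤ 17 * (J * Real.exp (-(J / 800))) → card ^ 2 * z ≤ 1 / (J : ℝ) ^ 4 := by
    intro z hz
    have k1 : card ^ 2 * z ≤ card ^ 2 * (17 * (J * Real.exp (-(J / 800)))) :=
      mul_le_mul_of_nonneg_left hz (by positivity)
    have k2 : card ^ 2 * (17 * (J * Real.exp (-(J / 800)))) ≤
        Real.exp (J / 4000) * (17 * (J * Real.exp (-(J / 800)))) :=
      mul_le_mul_of_nonneg_right (by linarith) (by positivity)
    have k3 : Real.exp (J / 4000) * (17 * (J * Real.exp (-(J / 800)))) =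
        17 * J * Real.exp (-(J / 1000)) := by
      have k4 : Real.exp (-((J : ℝ) / 1000)) = Real.exp (J / 4000) * Real.exp (-(J / 800)) := by
        rw [← Real.exp_add]
        congr 1
        ring
      rw [k4]
      ring
    refine (k1.trans k2).trans ?_
    rw [k3, le_div_iff₀ (by positivity)]
    calc 17 * (J : ℝ) * Real.exp (-(J / 1000)) * J ^ 4 =
          17 * (J : ℝ) ^ 5 * Real.exp (-(J / 1000)) := by
          ring
      _ ≤ 1 := hJ
  exact ⟨key _ (by linarith), key _ h3⟩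

end Pool.Agent.H.MP_b3c6db_nt
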