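import Pool.Agent.H.MP_b3c6db_nt.NC.Tail

/-! The weight of the large `d`, for parameters reduced by `τ` above `√P`.

PROOF of `tail_g`: copy the proof of `tail_small` (NC/Tail.lean) with `s = s0 P/2`, `L = log P`. For `p ≤ YY P` (`YY P ≤ √P` for large `P`)
`x p = xx P p`: factor `≤ e`, product `≤ exp (L^8)`. For `YY P < p`: `x p ≤ xx P p` (`τ ≥ 1`) and the factor is `≤ exp (3 x p s log p)`
(if `x p = 0` it is `1`), with `3 x p s log p ≤ 900 s L/√p` for `p ≤ √P` and `≤ 900 s L/(τ √p)` for `p > √P`.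
`∑_{p ≤ √P} 1/√p ≤ 8 √(√P)/log (√P) = 16 √(√P)/L` (`nc_sum_inv_sqrt` at `√P`, `Real.log_sqrt`) and `∑_{p ≤ P} 1/√p ≤ 8 √P/L`, so the
product is `≤ exp (L^8 + 14400 s √(√P) + 7200 s √P/τ)`. With `D^(-s) ≤ exp (-24000 s (√(√P) + √P/τ))` the sum is
`≤ exp (L^8 - 9600 s √(√P)) ≤ exp (-L) = 1/P` for large `P`: `s ≥ 1/(19200 L^5)`, `√(√P) = exp (L/4)`. -/

set_option autoImplicit false

namespace Pool.Agent.H.MP_b3c6db_nt

open Finset Filter

private theorem NLTail_exp4 (L : ℝ) (hL : 10 ^ 20 ≤ L) : 4 * L ^ 13 ≤ Real.exp (L / 4) := by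
  have hL0 : 0 ≤ L := le_trans (by positivity) hL
  have h1 := Real.pow_div_factorial_le_exp (L / 4) (by linarith) 14
  have h2 : ((Nat.factorial 14 : ℕ) : ℝ) = 87178291200 := by norm_num [Nat.factorial]
  rw [h2] at h1
  have h3 : (L / 4) ^ 14 / 87178291200 = L ^ 13 * (L / (268435456 * 87178291200)) := by ring
  have h4 : 4 ≤ L / (268435456 * 87178291200) := by
    rw [le_div_iff₀ (by norm_num)]
    refine le_trans ?_ hL
    norm_num
  have h13 : 0 ≤ L ^ 13 := by positivity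
  rw [h3] at h1
  nlinarith

private theorem NLTail_exp (L : ℝ) (hL : 10 ^ 20 ≤ L) :
    19200 * L ^ 5 * (L ^ 8 + L) ≤ 9600 * Real.exp (L / 4) := by
  have h5 := NLTail_exp4 L hL
  have h1L : (1 : ℝ) ≤ L := le_trans (by norm_num) hL
  have h6 : L ^ 6 ≤ L ^ 13 := pow_le_pow_right₀ h1L (by norm_num)
  have e : 19200 * L ^ 5 * (L ^ 8 + L) = 19200 * L ^ 13 + 19200 * L ^ 6 := by ring
  rw [e]
  linarith

private theorem NLTail_small {p : ℕ} (hp : p.Prime) {s : ℝ} (hs : 0 < s) :
    ((p : ℝ) ^ (-(2 * s))) * (p : ℝ) ^ s < 1 ∧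
    (1 - (p : ℝ) ^ (-(2 * s))) / (1 - (p : ℝ) ^ (-(2 * s)) * (p : ℝ) ^ s) ≤ Real.exp 1 := by
  have hp0 : (0 : ℝ) < p := by exact_mod_cast hp.pos
  have hp1 : (1 : ℝ) < p := by exact_mod_cast hp.one_lt
  have e1 : (p : ℝ) ^ (-(2 * s)) * (p : ℝ) ^ s = (p : ℝ) ^ (-s) := by
    rw [← Real.rpow_add hp0]
    congr 1
    ring
  have e2 : (p : ℝ) ^ (-(2 * s)) = ((p : ℝ) ^ (-s)) ^ 2 := by
    rw [← Real.rpow_natCast, ← Real.rpow_mul hp0.le]
    congr 1
    push_cast
    ring
  have hy1 : (p : ℝ) ^ (-s) < 1 := Real.rpow_lt_one_of_one_lt_of_neg hp1 (by linarith)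
  have hy0 : 0 < (p : ℝ) ^ (-s) := Real.rpow_pos_of_pos hp0 _
  rw [e1, e2]
  refine ⟨hy1, ?_⟩
  have hd : 0 < 1 - (p : ℝ) ^ (-s) := by linarith
  have e3 : (1 - ((p : ℝ) ^ (-s)) ^ 2) / (1 - (p : ℝ) ^ (-s)) = 1 + (p : ℝ) ^ (-s) := by
    rw [div_eq_iff hd.ne']
    ring
  rw [e3]
  have := Real.add_one_le_exp (1 : ℝ)
  linarith

private theorem NLTail_mid {x t : ℝ} (hx0 : 0 ≤ x) (hx : x ≤ 1 / 6) (ht0 : 0 ≤ t)
    (ht : t ≤ 1 / 3) :
    x * Real.exp t < 1 ∧ (1 - x) / (1 - x * Real.exp t) ≤ Real.exp (3 * x * t) := by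
  have h1 : Real.exp t ≤ 1 + 2 * t := by
    refine (Real.exp_bound_div_one_sub_of_interval ht0 (by linarith)).trans ?_
    rw [div_le_iff₀ (by linarith)]
    nlinarith
  have h0 : 0 < Real.exp t := Real.exp_pos t
  have h2 : x * Real.exp t ≤ 1 / 3 := by nlinarith
  refine ⟨by linarith, ?_⟩
  have h3 : 0 < 1 - x * Real.exp t := by linarith
  have h4 : (1 - x) / (1 - x * Real.exp t) ≤ 1 + 3 * x * t := by
    rw [div_le_iff₀ h3]
    have h5 : 0 ≤ x * t := mul_nonneg hx0 ht0
    have h6 : x * Real.exp t ≤ x * (1 + 2 * t) := mul_le_mul_of_nonneg_left h1 hx0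
    nlinarith
  have h7 := Real.add_one_le_exp (3 * x * t)
  linarith

private theorem NLTail_sqrt {P : ℝ} (hP : 0 < P) :
    Real.sqrt P = Real.exp (Real.log P / 2) := by
  rw [Real.exp_half, Real.exp_log hP]

theorem tail_g : ∀ᶠ P : ℝ in atTop, ∀ τ : ℝ, 1 ≤ τ → ∀ x : ℕ → ℝ, (∀ p, 0 ≤ x p) →
    (∀ p : ℕ, (p : ℝ) ≤ Real.sqrt P → x p = xx P p) →
    (∀ p : ℕ, Real.sqrt P < p → x p ≤ xx P p / τ) → ∀ (N : ℕ) (D : ℝ), N ≠ 0 →
    (∀ p ∈ N.primeFactors, (p : ℝ) ≤ P) →
    Real.exp (24000 * (Real.sqrt (Real.sqrt P) + Real.sqrt P / τ)) ≤ D →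
    ∑ d ∈ N.divisors.filter (fun d : ℕ => D < (d : ℝ)), ww x N d ≤ 1 / P := by
  have hsqt : Tendsto (fun P : ℝ => Real.sqrt P) atTop atTop := Real.tendsto_sqrt_atTop
  filter_upwards [xx_nonneg, xx_mid, nc_sum_inv_sqrt, hsqt.eventually nc_sum_inv_sqrt,
    Real.tendsto_log_atTop.eventually_ge_atTop (10 ^ 20), eventually_gt_atTop 1] with
    P hxx0 hmid hinv hinv2 hL hP τ hτ x hx0 hxs hxl N D hN hNP hD
  have hP0 : 0 < P := by linarith
  have hτ0 : 0 < τ := by linarith
  obtain ⟨L, hLdef⟩ : ∃ L, L = Real.log P := ⟨_, rfl⟩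
  rw [← hLdef] at hL
  have hL1 : (1 : ℝ) ≤ L := le_trans (by norm_num) hL
  have hL3 : (3 : ℝ) ≤ L := le_trans (by norm_num) hL
  have hL0 : 0 < L := by linarith
  have hloglog : 1 ≤ Real.log L := by
    rw [Real.le_log_iff_exp_le hL0]
    have := Real.exp_one_lt_d9
    linarith
  have hlogL : Real.log L ≤ L := by
    have := Real.log_le_sub_one_of_pos hL0
    linarith
  have hYY : YY P = L ^ 8 := by
    unfold YY
    rw [hLdef]
  have hsqY : Real.sqrt (YY P) = L ^ 4 := by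
    rw [hYY, show L ^ 8 = (L ^ 4) ^ 2 by ring, Real.sqrt_sq (by positivity)]
  have hlogY : Real.log (YY P) = 8 * Real.log L := by
    rw [hYY, Real.log_pow]
    norm_num
  obtain ⟨s, hsdef⟩ : ∃ s, s = 1 / (19200 * L ^ 4 * Real.log L) := ⟨_, rfl⟩
  have hs0 : s0 P = 2 * s := by
    unfold s0
    rw [hsqY, hlogY, hsdef]
    have : Real.log L ≠ 0 := by linarith
    field_simp
    norm_num
  have hden : 0 < 19200 * L ^ 4 * Real.log L := by
    have : 0 < Real.log L := by linarith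
    positivity
  have hspos : 0 < s := by
    rw [hsdef]
    positivity
  have hsL : s * L ≤ 1 / 3 := by
    rw [hsdef, div_mul_eq_mul_div, one_mul, div_le_iff₀ hden]
    have h1 : L ≤ L ^ 4 := le_self_pow₀ hL1 (by norm_num)
    have h2 : L ^ 4 ≤ L ^ 4 * Real.log L := le_mul_of_one_le_right (by positivity) hloglog
    have h3 : 0 ≤ L ^ 4 * Real.log L := by positivity
    nlinarith
  have hslow : L ^ 8 + L ≤ 9600 * s * Real.exp (L / 4) := by
    have h1 := NLTail_exp L hL
    have h2 : 1 / (19200 * L ^ 5) ≤ s := by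
      rw [hsdef]
      refine one_div_le_one_div_of_le hden ?_
      have : L ^ 4 * Real.log L ≤ L ^ 4 * L := mul_le_mul_of_nonneg_left hlogL (by positivity)
      nlinarith
    have h3 : L ^ 8 + L ≤ 9600 * Real.exp (L / 4) * (1 / (19200 * L ^ 5)) := by
      rw [mul_one_div, le_div_iff₀ (by positivity)]
      linarith
    refine h3.trans ?_
    have h4 : 0 ≤ 9600 * Real.exp (L / 4) := by positivity
    calc 9600 * Real.exp (L / 4) * (1 / (19200 * L ^ 5)) ≤ 9600 * Real.exp (L / 4) * s :=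
          mul_le_mul_of_nonneg_left h2 h4
      _ = 9600 * s * Real.exp (L / 4) := by ring
  have hsqP : Real.sqrt P = Real.exp (L / 2) := by
    rw [hLdef]
    exact NLTail_sqrt hP0
  have hsqP0 : 0 < Real.sqrt P := Real.sqrt_pos.mpr hP0
  have hlogsq : Real.log (Real.sqrt P) = L / 2 := by
    rw [hsqP, Real.log_exp]
  have hssP : Real.sqrt (Real.sqrt P) = Real.exp (L / 4) := by
    rw [NLTail_sqrt hsqP0, hlogsq]
    congr 1
    ring
  have hYYle : YY P ≤ Real.sqrt P := by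
    rw [hYY, hsqP]
    have h1 := NLTail_exp4 L hL
    have h2 : L ^ 8 ≤ L ^ 13 := pow_le_pow_right₀ hL1 (by norm_num)
    have h3 : Real.exp (L / 4) ≤ Real.exp (L / 2) := Real.exp_le_exp.mpr (by linarith)
    have h4 : 0 ≤ L ^ 13 := by positivity
    linarith
  -- the factors
  obtain ⟨h, hh⟩ : ∃ h : ℕ → ℝ, h = fun p : ℕ =>
    if (p : ℝ) ≤ YY P then 1 else if (p : ℝ) ≤ Real.sqrt P then 900 * s * L * (1 / Real.sqrt p)
      else 900 * s * L / τ * (1 / Real.sqrt p) := ⟨_, rfl⟩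
  have hfac : ∀ p ∈ N.primeFactors, x p ≤ 1 ∧ x p * (p : ℝ) ^ s < 1 ∧
      (1 - x p) / (1 - x p * (p : ℝ) ^ s) ≤ Real.exp (h p) := by
    intro p hp
    have hpp : p.Prime := Nat.prime_of_mem_primeFactors hp
    have hp0 : (0 : ℝ) < p := by exact_mod_cast hpp.pos
    have hp1 : (1 : ℝ) < p := by exact_mod_cast hpp.one_lt
    by_cases hY : (p : ℝ) ≤ YY P
    · have e : x p = (p : ℝ) ^ (-(2 * s)) := by
        rw [hxs p (hY.trans hYYle)]
        unfold xx
        rw [if_pos hY, hs0]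
      have e2 : h p = 1 := by
        rw [hh]
        exact if_pos hY
      rw [e, e2]
      refine ⟨?_, (NLTail_small hpp hspos).1, (NLTail_small hpp hspos).2⟩
      exact (Real.rpow_lt_one_of_one_lt_of_neg hp1 (by linarith)).le
    · have hY' : YY P < p := not_le.mp hY
      obtain ⟨hm1, hm2, -⟩ := hmid p hpp hY' (hNP p hp)
      have hlogp0 : 0 < Real.log p := Real.log_pos hp1
      have hlogp : Real.log p ≤ L := by
        rw [hLdef]
        exact Real.log_le_log hp0 (hNP p hp)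
      have e : xx P p = 300 * L / (Real.sqrt p * Real.log p) := by
        unfold xx
        rw [if_neg hY, if_pos (hNP p hp), hLdef]
      have hsp : 0 < Real.sqrt (p : ℝ) := Real.sqrt_pos.mpr hp0
      have e3 : (p : ℝ) ^ s = Real.exp (s * Real.log p) := by
        rw [Real.rpow_def_of_pos hp0, mul_comm]
      have e4 : 3 * xx P p * (s * Real.log p) = 900 * s * L * (1 / Real.sqrt p) := by
        rw [e]
        field_simp
        norm_num
      have ht : s * Real.log p ≤ 1 / 3 :=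
        (mul_le_mul_of_nonneg_left hlogp hspos.le).trans hsL
      have ht0 : 0 ≤ s * Real.log p := mul_nonneg hspos.le hlogp0.le
      have hxp : x p ≤ xx P p ∧ 3 * x p * (s * Real.log p) ≤ h p := by
        by_cases hq : (p : ℝ) ≤ Real.sqrt P
        · have e2 : h p = 900 * s * L * (1 / Real.sqrt p) := by
            rw [hh]
            simp only [if_neg hY, if_pos hq]
          rw [hxs p hq, e2, ← e4]
          exact ⟨le_refl _, le_refl _⟩
        · have e2 : h p = 900 * s * L / τ * (1 / Real.sqrt p) := by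
            rw [hh]
            simp only [if_neg hY, if_neg hq]
          have h5 := hxl p (not_le.mp hq)
          have h6 : xx P p / τ ≤ xx P p := div_le_self hm1.le hτ
          refine ⟨h5.trans h6, ?_⟩
          have e5 : h p = 3 * (xx P p / τ) * (s * Real.log p) := by
            rw [e2]
            have h7 : 3 * (xx P p / τ) * (s * Real.log p) =
                3 * xx P p * (s * Real.log p) / τ := by ring
            rw [h7, e4]
            ring
          rw [e5]
          exact mul_le_mul_of_nonneg_right (mul_le_mul_of_nonneg_left h5 (by norm_num)) ht0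
      obtain ⟨h3, h4⟩ := NLTail_mid (hx0 p) (hxp.1.trans hm2) ht0 ht
      rw [e3]
      refine ⟨by linarith [hxp.1], h3, h4.trans (Real.exp_le_exp.mpr hxp.2)⟩
  have hprod : ∏ p ∈ N.primeFactors, (1 - x p) / (1 - x p * (p : ℝ) ^ s) ≤
      Real.exp (∑ p ∈ N.primeFactors, h p) := by
    rw [Real.exp_sum]
    refine prod_le_prod (fun p hp => ?_) fun p hp => (hfac p hp).2.2
    obtain ⟨h1, h2, -⟩ := hfac p hp
    exact div_nonneg (by linarith) (by linarith)
  have hsum : ∑ p ∈ N.primeFactors, h p ≤ L ^ 8 + (14400 * s * Real.sqrt (Real.sqrt P) +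
      7200 * s * Real.sqrt P / τ) := by
    rw [← Finset.sum_filter_add_sum_filter_not N.primeFactors (fun p : ℕ => (p : ℝ) ≤ YY P)]
    have h1 : ∑ p ∈ N.primeFactors.filter (fun p : ℕ => (p : ℝ) ≤ YY P), h p ≤ L ^ 8 := by
      have e1 : ∑ p ∈ N.primeFactors.filter (fun p : ℕ => (p : ℝ) ≤ YY P), h p =
          ∑ p ∈ N.primeFactors.filter (fun p : ℕ => (p : ℝ) ≤ YY P), (1 : ℝ) := by
        refine sum_congr rfl fun p hp => ?_
        rw [hh]
        exact if_pos (mem_filter.mp hp).2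
      rw [e1, sum_const, nsmul_eq_mul, mul_one]
      have hY0 : 0 ≤ YY P := by
        rw [hYY]
        positivity
      have hsub : N.primeFactors.filter (fun p : ℕ => (p : ℝ) ≤ YY P) ⊆ Ioc 0 ⌊YY P⌋₊ := by
        intro p hp
        rw [mem_filter] at hp
        rw [mem_Ioc]
        exact ⟨(Nat.prime_of_mem_primeFactors hp.1).pos, Nat.le_floor hp.2⟩
      have hc := card_le_card hsub
      rw [Nat.card_Ioc, Nat.sub_zero] at hc
      rw [← hYY]
      calc ((N.primeFactors.filter (fun p : ℕ => (p : ℝ) ≤ YY P)).card : ℝ) ≤ ⌊YY P⌋₊ := by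
            exact_mod_cast hc
        _ ≤ YY P := Nat.floor_le hY0
    have h2 : ∑ p ∈ N.primeFactors.filter (fun p : ℕ => ¬ (p : ℝ) ≤ YY P), h p ≤
        14400 * s * Real.sqrt (Real.sqrt P) + 7200 * s * Real.sqrt P / τ := by
      rw [← Finset.sum_filter_add_sum_filter_not
        (N.primeFactors.filter (fun p : ℕ => ¬ (p : ℝ) ≤ YY P))
        (fun p : ℕ => (p : ℝ) ≤ Real.sqrt P)]
      refine add_le_add ?_ ?_
      · have e1 : ∑ p ∈ (N.primeFactors.filter (fun p : ℕ => ¬ (p : ℝ) ≤ YY P)).filter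
            (fun p : ℕ => (p : ℝ) ≤ Real.sqrt P), h p =
            900 * s * L * ∑ p ∈ (N.primeFactors.filter (fun p : ℕ => ¬ (p : ℝ) ≤ YY P)).filter
              (fun p : ℕ => (p : ℝ) ≤ Real.sqrt P), 1 / Real.sqrt p := by
          rw [mul_sum]
          refine sum_congr rfl fun p hp => ?_
          rw [mem_filter, mem_filter] at hp
          rw [hh]
          simp only [if_neg hp.1.2, if_pos hp.2]
        rw [e1]
        have h3 := hinv2 ((N.primeFactors.filter (fun p : ℕ => ¬ (p : ℝ) ≤ YY P)).filter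
          (fun p : ℕ => (p : ℝ) ≤ Real.sqrt P)) fun p hp => by
            rw [mem_filter, mem_filter] at hp
            exact ⟨Nat.prime_of_mem_primeFactors hp.1.1, hp.2⟩
        rw [hlogsq] at h3
        refine (mul_le_mul_of_nonneg_left h3 (by positivity)).trans (le_of_eq ?_)
        field_simp
        norm_num
      · have e1 : ∑ p ∈ (N.primeFactors.filter (fun p : ℕ => ¬ (p : ℝ) ≤ YY P)).filter
            (fun p : ℕ => ¬ (p : ℝ) ≤ Real.sqrt P), h p =
            900 * s * L / τ * ∑ p ∈ (N.primeFactors.filter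
              (fun p : ℕ => ¬ (p : ℝ) ≤ YY P)).filter
              (fun p : ℕ => ¬ (p : ℝ) ≤ Real.sqrt P), 1 / Real.sqrt p := by
          rw [mul_sum]
          refine sum_congr rfl fun p hp => ?_
          rw [mem_filter, mem_filter] at hp
          rw [hh]
          simp only [if_neg hp.1.2, if_neg hp.2]
        rw [e1]
        have h3 := hinv ((N.primeFactors.filter (fun p : ℕ => ¬ (p : ℝ) ≤ YY P)).filter
          (fun p : ℕ => ¬ (p : ℝ) ≤ Real.sqrt P)) fun p hp => by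
            rw [mem_filter, mem_filter] at hp
            exact ⟨Nat.prime_of_mem_primeFactors hp.1.1, hNP p hp.1.1⟩
        rw [← hLdef] at h3
        refine (mul_le_mul_of_nonneg_left h3 (by positivity)).trans (le_of_eq ?_)
        field_simp
        norm_num
    linarith
  -- the weights
  have hD0 : 0 < D := lt_of_lt_of_le (Real.exp_pos _) hD
  have hww : ∀ d ∈ N.divisors, 0 ≤ ww x N d := fun d hd =>
    ww_nonneg x hx0 N (fun p hp => (hfac p hp).1) d (Nat.dvd_of_mem_divisors hd) hN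
  have hDs : 0 < D ^ (-s) := Real.rpow_pos_of_pos hD0 _
  have hran : ∑ d ∈ N.divisors.filter (fun d : ℕ => D < (d : ℝ)), ww x N d ≤
      (∑ d ∈ N.divisors, ww x N d * (d : ℝ) ^ s) * D ^ (-s) := by
    rw [sum_mul]
    refine le_trans (sum_le_sum (g := fun d : ℕ => ww x N d * (d : ℝ) ^ s * D ^ (-s))
      fun d hd => ?_) (sum_le_sum_of_subset_of_nonneg (filter_subset _ _) fun d hd _ => ?_)
    · rw [mem_filter] at hd
      have h1 : 1 ≤ (d : ℝ) ^ s * D ^ (-s) := by
        have h2 : D ^ s ≤ (d : ℝ) ^ s := Real.rpow_le_rpow hD0.le hd.2.le hspos.le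
        have h3 : D ^ s * D ^ (-s) = 1 := by
          rw [← Real.rpow_add hD0, add_neg_cancel, Real.rpow_zero]
        rw [← h3]
        exact mul_le_mul_of_nonneg_right h2 hDs.le
      show ww x N d ≤ ww x N d * (d : ℝ) ^ s * D ^ (-s)
      rw [mul_assoc]
      exact le_mul_of_one_le_right (hww d hd.1) h1
    · have h1 : (0 : ℝ) ≤ (d : ℝ) ^ s := Real.rpow_nonneg (Nat.cast_nonneg d) _
      exact mul_nonneg (mul_nonneg (hww d hd) h1) hDs.le
  have hDle : D ^ (-s) ≤
      Real.exp (-(24000 * (Real.sqrt (Real.sqrt P) + Real.sqrt P / τ) * s)) := by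
    rw [Real.rpow_def_of_pos hD0]
    refine Real.exp_le_exp.mpr ?_
    have h1 : 24000 * (Real.sqrt (Real.sqrt P) + Real.sqrt P / τ) ≤ Real.log D :=
      (Real.le_log_iff_exp_le hD0).mpr hD
    have h2 := mul_le_mul_of_nonneg_right h1 hspos.le
    linarith
  have hrk := rankin x hx0 s hspos.le N hN (fun p hp => (hfac p hp).2.1)
  have hX : (∑ d ∈ N.divisors, ww x N d * (d : ℝ) ^ s) ≤
      Real.exp (L ^ 8 + (14400 * s * Real.sqrt (Real.sqrt P) + 7200 * s * Real.sqrt P / τ)) :=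
    (hrk.trans hprod).trans (Real.exp_le_exp.mpr hsum)
  calc ∑ d ∈ N.divisors.filter (fun d : ℕ => D < (d : ℝ)), ww x N d ≤
        (∑ d ∈ N.divisors, ww x N d * (d : ℝ) ^ s) * D ^ (-s) := hran
    _ ≤ Real.exp (L ^ 8 + (14400 * s * Real.sqrt (Real.sqrt P) + 7200 * s * Real.sqrt P / τ)) *
        Real.exp (-(24000 * (Real.sqrt (Real.sqrt P) + Real.sqrt P / τ) * s)) :=
        mul_le_mul hX hDle hDs.le (Real.exp_pos _).le
    _ = Real.exp (L ^ 8 + (14400 * s * Real.sqrt (Real.sqrt P) + 7200 * s * Real.sqrt P / τ) +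
        -(24000 * (Real.sqrt (Real.sqrt P) + Real.sqrt P / τ) * s)) := by
        rw [← Real.exp_add]
    _ ≤ Real.exp (-L) := by
        refine Real.exp_le_exp.mpr ?_
        rw [← hssP] at hslow
        have h1 : 0 ≤ s * (Real.sqrt P / τ) := by positivity
        have h2 : 7200 * s * Real.sqrt P / τ = 7200 * (s * (Real.sqrt P / τ)) := by ring
        have h3 : 24000 * (Real.sqrt (Real.sqrt P) + Real.sqrt P / τ) * s =
            24000 * s * Real.sqrt (Real.sqrt P) + 24000 * (s * (Real.sqrt P / τ)) := by ring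
        rw [h2, h3]
        linarith
    _ = 1 / P := by
        rw [Real.exp_neg, hLdef, Real.exp_log hP0, one_div]

end Pool.Agent.H.MP_b3c6db_nt
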