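import Pool.Agent.H.MP_b3c6db_nt.NC.XM

/-! Two facts on the parameters.

PROOF. `YY P = (log P)^8 ≤ √P` for large `P` (`Real.isLittleO_pow_log_id_atTop` with exponent `16`, or `isLittleO` of powers of the logarithm).
For `YY P < √P < p ≤ P`: `xx P p = 300 log P/(√p log p)`, `log p ≥ log P/2`. -/

set_option autoImplicit false

namespace Pool.Agent.H.MP_b3c6db_nt

open Finset Filter

theorem YY_le_sqrt : ∀ᶠ P : ℝ in atTop, YY P ≤ Real.sqrt P := by
  have h0 := (Real.isLittleO_pow_log_id_atTop (n := 16)).bound one_pos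
  filter_upwards [h0, eventually_ge_atTop (1 : ℝ)] with P h1 h2
  have hL : 0 ≤ Real.log P := Real.log_nonneg h2
  unfold YY
  apply Real.le_sqrt_of_sq_le
  rw [one_mul, id, Real.norm_eq_abs, Real.norm_eq_abs, abs_of_nonneg (pow_nonneg hL 16),
    abs_of_nonneg (by linarith : (0 : ℝ) ≤ P)] at h1
  calc (Real.log P ^ 8) ^ 2 = Real.log P ^ 16 := by ring
    _ ≤ P := h1

theorem xx_le_sqrt : ∀ᶠ P : ℝ in atTop, ∀ p : ℕ, p.Prime → Real.sqrt P < p → (p : ℝ) ≤ P →
    xx P p ≤ 600 / Real.sqrt p := by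
  filter_upwards [YY_le_sqrt, eventually_gt_atTop (1 : ℝ)] with P h1 h2 p hp h3 h4
  have hn : ¬ (p : ℝ) ≤ YY P := by
    intro h
    linarith
  have hp1 : (1 : ℝ) < p := by exact_mod_cast hp.one_lt
  have hlp : 0 < Real.log p := Real.log_pos hp1
  have hsp : 0 < Real.sqrt p := Real.sqrt_pos.2 (by linarith)
  have hP0 : (0 : ℝ) ≤ P := by linarith
  have hPp : P ≤ (p : ℝ) ^ 2 := by
    have h5 := Real.sq_sqrt hP0
    have h6 := Real.sqrt_nonneg P
    nlinarith
  have hlog : Real.log P ≤ 2 * Real.log p := by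
    have h5 := Real.log_le_log (by linarith) hPp
    rw [Real.log_pow] at h5
    push_cast at h5
    exact h5
  unfold xx
  rw [if_neg hn, if_pos h4, div_le_div_iff₀ (mul_pos hsp hlp) hsp]
  nlinarith [mul_le_mul_of_nonneg_left hlog hsp.le]

end Pool.Agent.H.MP_b3c6db_nt
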