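import Pool.Agent.H.MP_b3c6db_nt.NL.LocM
import Pool.Agent.H.MP_b3c6db_nt.NL.Tail
import Pool.Agent.H.MP_b3c6db_nt.NL.XL
import Pool.Agent.H.MP_b3c6db_nt.NL.Err
import Pool.Agent.H.MP_b3c6db_nt.NC.Upper
import Pool.Agent.H.MP_b3c6db_nt.NL.Defs
import Pool.Agent.H.MP_b3c6db_nt.NL.Sharp

/-! The upper bound with signed weights. -/

set_option autoImplicit false

namespace Pool.Agent.H.MP_b3c6db_nt

open Finset Filter

private lemma NLUpper_filter (N : ℕ) (hN : N ≠ 0) (D : ℝ) (hD : 0 ≤ D) :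
    N.divisors.filter (fun d : ℕ => ¬ D < (d : ℝ)) = (Icc 1 ⌊D⌋₊).filter (fun d => d ∣ N) := by
  ext d
  rw [mem_filter, mem_filter, Nat.mem_divisors, mem_Icc, not_lt]
  constructor
  · rintro ⟨⟨h3, h4⟩, h5⟩
    exact ⟨⟨Nat.pos_of_dvd_of_pos h3 (Nat.pos_of_ne_zero hN), Nat.le_floor h5⟩, h3⟩
  · rintro ⟨⟨h3, h4⟩, h5⟩
    exact ⟨⟨h5, hN⟩, (Nat.le_floor_iff hD).1 h4⟩

/-- the sum over `Icc 1 ⌊D⌋₊` -/
private lemma NLUpper_sum {R : Type*} [CommRing R] (f : ℕ → R) (N : ℕ) (hN : N ≠ 0) (D : ℝ)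
    (hD : 0 ≤ D) :
    ∑ d ∈ Icc 1 ⌊D⌋₊, (if d ∣ N then f d else 0) =
      ∑ d ∈ N.divisors, f d - ∑ d ∈ N.divisors.filter (fun d : ℕ => D < (d : ℝ)), f d := by
  classical
  have h1 := sum_filter_add_sum_filter_not N.divisors (fun d : ℕ => D < (d : ℝ)) f
  rw [← h1, NLUpper_filter N hN D hD, add_sub_cancel_left, sum_filter]

/-- the signed weights -/
private noncomputable def NLUpper_w (P τ : ℝ) (N d : ℕ) : ℝ :=
  if d ∣ N then 2 * (τ * ww (xa (xx P) P τ) N d - (τ - 1) * ww (xb (xx P) P) N d) else 0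

private lemma NLUpper_geom (J : ℕ) (hJ : 1608 ≤ J) :
    ∑ m ∈ range J, Real.exp (-(1 / 400 * (m : ℝ))) ≤ 401 := by
  obtain ⟨-, -, h3⟩ := KK_good J hJ 0 (by rw [abs_zero]; exact (Real.exp_pos _).le)
  have h5 : KK (1 / 400) J 0 = ((∑ m ∈ range J, Real.exp (-(1 / 400 * (m : ℝ))) : ℝ) : ℂ) := by
    unfold KK
    have h6 : om 0 = 0 := by simp [om]
    simp only [zero_mul, h6, Complex.exp_zero, mul_one]
    rw [Complex.ofReal_sum]
  rw [h5, Complex.norm_real] at h3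
  exact (le_abs_self _).trans h3

theorem upper_l1 : ∃ C : ℝ, 0 ≤ C ∧ ∀ᶠ J : ℕ in atTop, ∀ τ : ℝ, 1 ≤ τ → τ ≤ J / 10 ^ 9 →
    ∀ H : ℕ, Real.exp (10 * J) ≤ H → deltaL1 (30000 * τ) H ≤ C / (τ * J) := by
  refine ⟨16 + 2 * 10 ^ 11 * 384000000, by norm_num, ?_⟩
  have hall := (((((((((xx_small.and ee_sum).and xx_nonneg).and xx_mid).and xx_large).and
    tail_g).and YY_le_sqrt).and xx_le_sqrt).and
    (eventually_ge_atTop (10 ^ 22 : ℝ))))
  obtain ⟨P0, hP0⟩ := eventually_atTop.1 hall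
  have hPt : Tendsto (fun J : ℕ => ((J : ℝ) / 384000000) ^ 2) atTop atTop := by
    have h := (tendsto_natCast_atTop_atTop (R := ℝ)).atTop_div_const
      (by norm_num : (0 : ℝ) < 384000000)
    exact (tendsto_pow_atTop two_ne_zero).comp h
  filter_upwards [hPt.eventually (eventually_ge_atTop P0),
    hPt.eventually (eventually_ge_atTop (10 ^ 22 : ℝ)), err_small4, eventually_ge_atTop 1608]
    with J hJP0 hJP a8 a9 τ hτ hτJ H hH
  have hJ : (1608 : ℝ) ≤ J := by exact_mod_cast a9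
  have hJ0 : (0 : ℝ) < J := by linarith
  have hτ0 : (0 : ℝ) < τ := by linarith
  obtain ⟨κJ, hκ⟩ : ∃ κJ : ℝ, κJ = (J : ℝ) / 384000000 := ⟨_, rfl⟩
  rw [← hκ] at hJP0 hJP
  have hκ0 : 0 < κJ := by rw [hκ]; positivity
  have hτκ : τ ≤ κJ := by
    rw [hκ]
    refine hτJ.trans ?_
    exact div_le_div_of_nonneg_left hJ0.le (by norm_num) (by norm_num)
  have hκ11 : 10 ^ 11 ≤ κJ := by
    have h1 : (10 ^ 11 : ℝ) ^ 2 ≤ κJ ^ 2 := by
      refine le_trans (le_of_eq ?_) hJP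
      norm_num
    exact (pow_le_pow_iff_left₀ (by norm_num) hκ0.le two_ne_zero).1 h1
  obtain ⟨P, hP⟩ : ∃ P : ℝ, P = (τ * κJ) ^ 2 := ⟨_, rfl⟩
  have hκP : κJ ^ 2 ≤ P := by
    rw [hP]
    refine pow_le_pow_left₀ hκ0.le ?_ 2
    exact le_mul_of_one_le_left hκ0.le hτ
  obtain ⟨⟨⟨⟨⟨⟨⟨⟨a1, a2⟩, a3⟩, a4⟩, a5⟩, a6⟩, a6'⟩, a6''⟩, a7⟩ := hP0 P (hJP0.trans hκP)
  have hsP : Real.sqrt P = τ * κJ := by rw [hP, Real.sqrt_sq (by positivity)]
  have hP00 : (0 : ℝ) ≤ P := by linarith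
  have hPpos : (0 : ℝ) < P := by linarith
  have hsP0 : 0 < Real.sqrt P := by rw [hsP]; positivity
  have hsP11 : 10 ^ 11 ≤ Real.sqrt P := by
    rw [hsP]
    exact hκ11.trans (le_mul_of_one_le_left hκ0.le hτ)
  have hτsP : τ ≤ Real.sqrt P := by
    rw [hsP]
    exact le_mul_of_one_le_right hτ0.le (by linarith)
  have hsqP : Real.sqrt P * Real.sqrt P = P := Real.mul_self_sqrt hP00
  have hτP : τ * (1 / P) ≤ 1 / Real.sqrt P := by
    rw [mul_one_div, div_le_div_iff₀ hPpos hsP0]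
    calc τ * Real.sqrt P ≤ Real.sqrt P * Real.sqrt P := mul_le_mul_of_nonneg_right hτsP hsP0.le
      _ = 1 * P := by rw [hsqP, one_mul]
  have hinv : 1 / Real.sqrt P ≤ 1 / 10 := by
    refine one_div_le_one_div_of_le (by norm_num) ?_
    refine le_trans ?_ hsP11
    norm_num
  obtain ⟨D, hDdef⟩ : ∃ D : ℝ, D = Real.exp (J / 8000) := ⟨_, rfl⟩
  obtain ⟨B, hBdef⟩ : ∃ B : ℝ, B = Real.exp (3 / 2 * J) := ⟨_, rfl⟩
  obtain ⟨X, hXdef⟩ : ∃ X : ℝ, X = Real.exp (5 * J) := ⟨_, rfl⟩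
  have hD0 : 0 < D := by rw [hDdef]; exact Real.exp_pos _
  have hX0 : 0 < X := by rw [hXdef]; exact Real.exp_pos _
  have hD1 : 1 ≤ D := by rw [hDdef]; exact Real.one_le_exp (by positivity)
  have hB1 : 1 ≤ B := by rw [hBdef]; exact Real.one_le_exp (by positivity)
  obtain ⟨N, hNdef⟩ : ∃ N : ℕ, N = NN P (4 * J) := ⟨_, rfl⟩
  have hN : N ≠ 0 := by rw [hNdef]; exact NN_ne_zero _ _
  have hNp : ∀ p ∈ N.primeFactors, p.Prime ∧ (p : ℝ) ≤ P := by
    intro p hp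
    rw [hNdef] at hp
    exact NN_primes _ _ p hp
  have hx1 : ∀ p ∈ N.primeFactors, xx P p ≤ 1 := by
    intro p hp
    obtain ⟨h1, h2⟩ := hNp p hp
    rcases le_or_gt (p : ℝ) (YY P) with h3 | h3
    · exact (a1 p h1 h3).2.1
    · have := (a4 p h1 h3 h2).2.1
      linarith
  -- the two parameters
  have hxa0 : ∀ p, 0 ≤ xa (xx P) P τ p := by
    intro p
    unfold xa
    split_ifs
    · exact a3 p
    · exact div_nonneg (a3 p) hτ0.le
  have hxb0 : ∀ p, 0 ≤ xb (xx P) P p := by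
    intro p
    unfold xb
    split_ifs
    · exact a3 p
    · exact le_rfl
  have hxa1 : ∀ p ∈ N.primeFactors, xa (xx P) P τ p ≤ 1 := by
    intro p hp
    unfold xa
    split_ifs
    · exact hx1 p hp
    · exact (div_le_self (a3 p) hτ).trans (hx1 p hp)
  have hxb1 : ∀ p ∈ N.primeFactors, xb (xx P) P p ≤ 1 := by
    intro p hp
    unfold xb
    split_ifs
    · exact hx1 p hp
    · exact zero_le_one
  have hxaL : ∀ p : ℕ, p.Prime → P < p → xa (xx P) P τ p = 0 := by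
    intro p hp h
    unfold xa
    rw [a5 p hp h]
    split_ifs <;> simp
  have hxbL : ∀ p : ℕ, p.Prime → P < p → xb (xx P) P p = 0 := by
    intro p hp h
    unfold xb
    rw [a5 p hp h]
    split_ifs <;> rfl
  have hwa : ∀ d, d ∣ N → 0 ≤ ww (xa (xx P) P τ) N d := fun d hd =>
    ww_nonneg _ hxa0 N hxa1 d hd hN
  have hwb : ∀ d, d ∣ N → 0 ≤ ww (xb (xx P) P) N d := fun d hd =>
    ww_nonneg _ hxb0 N hxb1 d hd hN
  have hDle : Real.exp (24000 * (Real.sqrt (Real.sqrt P) + Real.sqrt P / τ)) ≤ D := by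
    rw [hDdef]
    refine Real.exp_le_exp.2 ?_
    have h1 : Real.sqrt P / τ = κJ := by
      rw [hsP]
      field_simp
    have h2 : Real.sqrt (Real.sqrt P) ≤ κJ := by
      rw [hsP]
      refine Real.sqrt_le_iff.2 ⟨hκ0.le, ?_⟩
      rw [sq]
      exact mul_le_mul_of_nonneg_right hτκ hκ0.le
    rw [h1]
    calc 24000 * (Real.sqrt (Real.sqrt P) + κJ) ≤ 24000 * (κJ + κJ) := by linarith
      _ = J / 8000 := by rw [hκ]; ring
  have hta : ∑ d ∈ N.divisors.filter (fun d : ℕ => D < (d : ℝ)), ww (xa (xx P) P τ) N d ≤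
      1 / P := by
    refine a6 τ hτ _ hxa0 ?_ ?_ N D hN (fun p hp => (hNp p hp).2) hDle
    · intro p hp
      unfold xa
      rw [if_pos hp]
    · intro p hp
      unfold xa
      rw [if_neg (not_le.2 hp)]
  have htb : ∑ d ∈ N.divisors.filter (fun d : ℕ => D < (d : ℝ)), ww (xb (xx P) P) N d ≤
      1 / P := by
    refine a6 τ hτ _ hxb0 ?_ ?_ N D hN (fun p hp => (hNp p hp).2) hDle
    · intro p hp
      unfold xb
      rw [if_pos hp]
    · intro p hp
      unfold xb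
      rw [if_neg (not_le.2 hp)]
      exact div_nonneg (a3 p) hτ0.le
  have hta0 : 0 ≤ ∑ d ∈ N.divisors.filter (fun d : ℕ => D < (d : ℝ)), ww (xa (xx P) P τ) N d :=
    sum_nonneg fun d hd => hwa d (Nat.mem_divisors.1 (mem_filter.1 hd).1).1
  have htb0 : 0 ≤ ∑ d ∈ N.divisors.filter (fun d : ℕ => D < (d : ℝ)), ww (xb (xx P) P) N d :=
    sum_nonneg fun d hd => hwb d (Nat.mem_divisors.1 (mem_filter.1 hd).1).1
  have htot : ∀ x : ℕ → ℝ, ∑ d ∈ N.divisors, ww x N d = 1 := by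
    intro x
    have h1 := sum_ww x N 1 hN (one_dvd N)
    rw [Arho_one] at h1
    rw [← h1]
    refine sum_congr ?_ fun d _ => rfl
    ext d
    simp
  have hwsum : ∑ d ∈ Icc 1 ⌊D⌋₊, NLUpper_w P τ N d =
      2 * (τ * (1 - ∑ d ∈ N.divisors.filter (fun d : ℕ => D < (d : ℝ)), ww (xa (xx P) P τ) N d) -
        (τ - 1) * (1 - ∑ d ∈ N.divisors.filter (fun d : ℕ => D < (d : ℝ)),
          ww (xb (xx P) P) N d)) := by
    unfold NLUpper_w
    rw [NLUpper_sum (fun d => 2 * (τ * ww (xa (xx P) P τ) N d - (τ - 1) * ww (xb (xx P) P) N d))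
      N hN D hD0.le, ← mul_sum, ← mul_sum, sum_sub_distrib, sum_sub_distrib, ← mul_sum, ← mul_sum,
      ← mul_sum, ← mul_sum, htot, htot]
    ring
  have hw1 : 1 ≤ ∑ d ∈ Icc 1 ⌊D⌋₊, NLUpper_w P τ N d := by
    rw [hwsum]
    have h1 : τ * ∑ d ∈ N.divisors.filter (fun d : ℕ => D < (d : ℝ)), ww (xa (xx P) P τ) N d ≤
        τ * (1 / P) := mul_le_mul_of_nonneg_left hta hτ0.le
    have h2 : 0 ≤ (τ - 1) * ∑ d ∈ N.divisors.filter (fun d : ℕ => D < (d : ℝ)),
        ww (xb (xx P) P) N d := mul_nonneg (by linarith) htb0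
    nlinarith
  have hwabs : ∑ d ∈ Icc 1 ⌊D⌋₊, |NLUpper_w P τ N d| ≤ 4 * τ := by
    have h1 : ∀ d ∈ Icc 1 ⌊D⌋₊, |NLUpper_w P τ N d| ≤
        if d ∣ N then 2 * (τ * ww (xa (xx P) P τ) N d + (τ - 1) * ww (xb (xx P) P) N d) else 0 := by
      intro d _
      unfold NLUpper_w
      split_ifs with h
      · have h2 := mul_nonneg hτ0.le (hwa d h)
        have h3 := mul_nonneg (by linarith : 0 ≤ τ - 1) (hwb d h)
        rw [abs_le]
        constructor <;> linarith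
      · rw [abs_zero]
    refine (sum_le_sum h1).trans ?_
    rw [NLUpper_sum (fun d => 2 * (τ * ww (xa (xx P) P τ) N d + (τ - 1) * ww (xb (xx P) P) N d))
      N hN D hD0.le, ← mul_sum, ← mul_sum, sum_add_distrib, sum_add_distrib, ← mul_sum, ← mul_sum,
      ← mul_sum, ← mul_sum, htot, htot]
    have h2 := mul_nonneg hτ0.le hta0
    have h3 := mul_nonneg (by linarith : 0 ≤ τ - 1) htb0
    linarith
  have hmem : ∀ d : ℕ, d ∈ Icc 1 ⌊D⌋₊ ↔ 1 ≤ d ∧ (d : ℝ) ≤ D := by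
    intro d
    rw [mem_Icc, Nat.le_floor_iff hD0.le]
  obtain ⟨b1, b2⟩ := a8 H hH 1 zero_le_one (Real.one_le_exp (by positivity))
  rw [← hDdef, ← hBdef, ← hXdef, one_pow, one_mul] at b1
  rw [← hDdef, ← hXdef, one_pow, one_mul] at b2
  have hτJ1 : τ ≤ J := hτJ.trans (div_le_self hJ0.le (by norm_num))
  have hJ4 : 4 * τ * (1 / (J : ℝ) ^ 4) ≤ 4 / (τ * J) := by
    rw [mul_one_div, div_le_div_iff₀ (by positivity) (by positivity)]
    have h1 : τ * τ ≤ J * J := mul_le_mul hτJ1 hτJ1 hτ0.le hJ0.le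
    have h2 : τ * τ * J ≤ J * J * J := mul_le_mul_of_nonneg_right h1 hJ0.le
    have h3 : (J : ℝ) * J * J ≤ J ^ 4 := by
      have h4 : (J : ℝ) * J * J * 1 ≤ J * J * J * J :=
        mul_le_mul_of_nonneg_left (by linarith) (by positivity)
      calc (J : ℝ) * J * J = J * J * J * 1 := by ring
        _ ≤ J * J * J * J := h4
        _ = J ^ 4 := by ring
    nlinarith
  have hτJ2 : 4 / (τ * J) ≤ 1 / 2 := by
    rw [div_le_div_iff₀ (by positivity) (by norm_num)]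
    have : 1 * J ≤ τ * J := mul_le_mul_of_nonneg_right hτ hJ0.le
    linarith
  have hc1 : 4 * τ * (errC (1 / 400) J X B D + errT J X H) ≤ 4 / (τ * J) :=
    (mul_le_mul_of_nonneg_left b1 (by positivity)).trans hJ4
  have hc2 : 4 * τ * (J * (D * Real.exp J / X)) ≤ 4 / (τ * J) :=
    (mul_le_mul_of_nonneg_left b2 (by positivity)).trans hJ4
  have hLb1 : 10 ^ 11 / Real.sqrt P ≤ 1 := by
    rw [div_le_one hsP0]
    exact hsP11
  have hmain := deltaL1_sharp (Icc 1 ⌊D⌋₊)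
    (by
      intro v hv
      rw [mem_Icc] at hv
      omega)
    (NLUpper_w P τ N) (4 * τ) hwabs hw1
    (1 / 400) (by norm_num) J (by omega) X B D (10 ^ 11 / Real.sqrt P) hX0 hB1
    (fun d hd => ((hmem d).1 hd).2) hD1
    (by
      rw [hBdef, hDdef, hXdef, ← Real.exp_nat_mul, ← Real.exp_add, ← Real.exp_add]
      refine Real.exp_le_exp.2 ?_
      push_cast
      nlinarith)
    (by
      intro d₁ hd₁ d₂ hd₂
      obtain ⟨c1, c2⟩ := (hmem d₁).1 hd₁
      obtain ⟨c3, c4⟩ := (hmem d₂).1 hd₂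
      refine ⟨d₁ * d₂, ?_, Dvd.intro _ rfl, Dvd.intro_left _ rfl, ?_⟩
      · exact Nat.mul_ne_zero (by omega) (by omega)
      · have c5 : ((d₁ * d₂ : ℕ) : ℝ) ^ 2 ≤ (D * D) ^ 2 := by
          refine pow_le_pow_left₀ (Nat.cast_nonneg _) ?_ 2
          rw [Nat.cast_mul]
          exact mul_le_mul c2 c4 (Nat.cast_nonneg _) hD0.le
        have c6 : (2 : ℝ) ≤ Real.exp J := by
          have := Real.add_one_le_exp (J : ℝ)
          linarith
        calc 2 * B ^ 3 * ((d₁ * d₂ : ℕ) : ℝ) ^ 2 ≤ Real.exp J * B ^ 3 * (D * D) ^ 2 := by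
              gcongr
          _ < X ^ 2 := by
              rw [hBdef, hDdef, hXdef, ← Real.exp_nat_mul, ← Real.exp_add, ← Real.exp_add,
                ← Real.exp_nat_mul, ← Real.exp_add, ← Real.exp_nat_mul]
              refine Real.exp_lt_exp.2 ?_
              push_cast
              nlinarith)
    (by positivity)
    (by
      intro r hr u hu
      obtain ⟨k1, k2, k3⟩ := KK_good J a9 u (by rw [← hBdef]; exact hu)
      have hden : (r.den : ℝ) < 2 ^ (4 * J) := by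
        refine lt_of_le_of_lt hr ?_
        have c1 : (2 : ℝ) ^ (4 * J) = Real.exp (((4 * J : ℕ) : ℝ) * Real.log 2) := by
          rw [← Real.log_pow, Real.exp_log (by positivity)]
        rw [c1, hBdef, hDdef, ← Real.exp_nat_mul, ← Real.exp_add]
        refine Real.exp_lt_exp.2 ?_
        have c2 := Real.log_two_gt_d9
        push_cast
        nlinarith
      have hga := gauss_sum_w (xa (xx P) P τ) N hN r (by
        rw [hNdef]
        exact NN_dvd P hP00 (4 * J) (xa (xx P) P τ) hxaL r hden)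
      have hgb := gauss_sum_w (xb (xx P) P) N hN r (by
        rw [hNdef]
        exact NN_dvd P hP00 (4 * J) (xb (xx P) P) hxbL r hden)
      have hl := loc_signed (xx P) (ee P) (YY P) P τ (by linarith) a6' hτ
        (fun p hp h => by
          obtain ⟨c1, c2, c3, c4, c5⟩ := a1 p hp h
          exact ⟨by linarith, c2, c3, c4, c5⟩)
        a2
        (fun p hp h h' => by
          obtain ⟨c1, c2, c3, c4, c5⟩ := a4 p hp h h'
          exact ⟨c1, by linarith, c3, c4, c5⟩)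
        (fun p hp h h' => ⟨(a4 p hp (lt_of_le_of_lt a6' h) h').2.1, a6'' p hp h h'⟩)
        a5 (KK (1 / 400) J u) 401 k1 k2 k3 r
      rw [← hga, ← hgb] at hl
      set g : ℕ → ℂ := fun d => gG ((d : ℚ) ^ 2 * r) with hg
      have hsumC : ∑ d ∈ Icc 1 ⌊D⌋₊, ((NLUpper_w P τ N d : ℝ) : ℂ) * gG ((d : ℚ) ^ 2 * r) =
          2 * ((τ : ℂ) * (∑ d ∈ N.divisors, ((ww (xa (xx P) P τ) N d : ℝ) : ℂ) * g d -
            ∑ d ∈ N.divisors.filter (fun d : ℕ => D < (d : ℝ)),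
              ((ww (xa (xx P) P τ) N d : ℝ) : ℂ) * g d) -
            ((τ - 1 : ℝ) : ℂ) * (∑ d ∈ N.divisors, ((ww (xb (xx P) P) N d : ℝ) : ℂ) * g d -
            ∑ d ∈ N.divisors.filter (fun d : ℕ => D < (d : ℝ)),
              ((ww (xb (xx P) P) N d : ℝ) : ℂ) * g d)) := by
        have e0 : ∀ d ∈ Icc 1 ⌊D⌋₊, ((NLUpper_w P τ N d : ℝ) : ℂ) * gG ((d : ℚ) ^ 2 * r) =
            if d ∣ N then 2 * ((τ : ℂ) * (((ww (xa (xx P) P τ) N d : ℝ) : ℂ) * g d) -
              ((τ - 1 : ℝ) : ℂ) * (((ww (xb (xx P) P) N d : ℝ) : ℂ) * g d)) else 0 := by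
          intro d _
          unfold NLUpper_w
          split_ifs
          · push_cast
            ring
          · simp
        rw [sum_congr rfl e0, NLUpper_sum (fun d =>
          2 * ((τ : ℂ) * (((ww (xa (xx P) P τ) N d : ℝ) : ℂ) * g d) -
              ((τ - 1 : ℝ) : ℂ) * (((ww (xb (xx P) P) N d : ℝ) : ℂ) * g d))) N hN D hD0.le,
          ← mul_sum, ← mul_sum, sum_sub_distrib, sum_sub_distrib, ← mul_sum, ← mul_sum,
          ← mul_sum, ← mul_sum]
        ring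
      rw [hsumC]
      have ht : ∀ x : ℕ → ℝ, (∀ d, d ∣ N → 0 ≤ ww x N d) →
          ∑ d ∈ N.divisors.filter (fun d : ℕ => D < (d : ℝ)), ww x N d ≤ 1 / P →
          ‖∑ d ∈ N.divisors.filter (fun d : ℕ => D < (d : ℝ)),
            ((ww x N d : ℝ) : ℂ) * g d‖ ≤ 1 / P := by
        intro x hx hxt
        refine (norm_sum_le _ _).trans (le_trans (sum_le_sum fun d hd => ?_) hxt)
        have c1 := hx d (Nat.mem_divisors.1 (mem_filter.1 hd).1).1
        rw [norm_mul, Complex.norm_real, Real.norm_of_nonneg c1]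
        exact mul_le_of_le_one_right c1 (norm_gG_le_one _)
      have hta' := ht _ hwa hta
      have htb' := ht _ hwb htb
      set S1 := ∑ d ∈ N.divisors, ((ww (xa (xx P) P τ) N d : ℝ) : ℂ) * g d with hS1
      set S2 := ∑ d ∈ N.divisors.filter (fun d : ℕ => D < (d : ℝ)),
          ((ww (xa (xx P) P τ) N d : ℝ) : ℂ) * g d with hS2
      set S3 := ∑ d ∈ N.divisors, ((ww (xb (xx P) P) N d : ℝ) : ℂ) * g d with hS3
      set S4 := ∑ d ∈ N.divisors.filter (fun d : ℕ => D < (d : ℝ)),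
          ((ww (xb (xx P) P) N d : ℝ) : ℂ) * g d with hS4
      have e1 : KK (1 / 400) J u * (2 * ((τ : ℂ) * (S1 - S2) - ((τ - 1 : ℝ) : ℂ) * (S3 - S4))) =
          ((2 : ℝ) : ℂ) * (KK (1 / 400) J u * ((τ : ℂ) * S1 - ((τ - 1 : ℝ) : ℂ) * S3)) -
          ((2 : ℝ) : ℂ) * (KK (1 / 400) J u * ((τ : ℂ) * S2 - ((τ - 1 : ℝ) : ℂ) * S4)) := by
        push_cast
        ring
      rw [e1, Complex.sub_re, Complex.re_ofReal_mul, Complex.re_ofReal_mul]
      have e2 : (KK (1 / 400) J u * ((τ : ℂ) * S2 - ((τ - 1 : ℝ) : ℂ) * S4)).re ≤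
          401 * (2 * (1 / Real.sqrt P)) := by
        refine (Complex.re_le_norm _).trans ?_
        rw [norm_mul]
        refine mul_le_mul k3 ?_ (norm_nonneg _) (by norm_num)
        refine (norm_sub_le _ _).trans ?_
        rw [norm_mul, norm_mul, Complex.norm_real, Complex.norm_real,
          Real.norm_of_nonneg hτ0.le, Real.norm_of_nonneg (by linarith : 0 ≤ τ - 1)]
        have c1 : τ * ‖S2‖ ≤ τ * (1 / P) := mul_le_mul_of_nonneg_left hta' hτ0.le
        have c2 : (τ - 1) * ‖S4‖ ≤ τ * (1 / P) :=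
          mul_le_mul (by linarith) htb' (norm_nonneg _) hτ0.le
        linarith
      have e3 : 10 ^ 11 / Real.sqrt P = 10 ^ 11 * (1 / Real.sqrt P) := by ring
      have e4 : 401 * (10 ^ 8 / Real.sqrt P) = 401 * 10 ^ 8 * (1 / Real.sqrt P) := by ring
      have e5 : 0 < 1 / Real.sqrt P := by positivity
      rw [e4] at hl
      rw [e3]
      nlinarith)
    H
    (hc1.trans hτJ2)
    (30000 * τ)
    (by
      have h1 := NLUpper_geom J a9
      have h2 : 7 * (4 * τ) * ∑ m ∈ range J, Real.exp (-(1 / 400 * (m : ℝ))) ≤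
          7 * (4 * τ) * 401 := mul_le_mul_of_nonneg_left h1 (by positivity)
      linarith)
  refine hmain.trans ?_
  have hfin : 2 * (4 / (τ * J) + (10 ^ 11 / Real.sqrt P + 4 / (τ * J))) =
      (16 + 2 * 10 ^ 11 * 384000000) / (τ * J) := by
    rw [hsP, hκ]
    field_simp
    ring
  rw [← hfin]
  linarith

end Pool.Agent.H.MP_b3c6db_nt
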