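import Pool.Agent.H.MP_b3c6db_nt.NC.Fac

/-! The local factors at the primes in `(√P, P]`.

`G = F0 + τ (F1 - F0)` with `F0 = Dlt 1 r` (the sum with parameter `0`) and `F1` the sum with parameter `Y/τ`.
PROOF. `F1 - F0 = ∑_{e ≥ 1} (Y/τ)^e Dlt (p^e) r`, `‖Dlt (p^e) r‖ ≤ 2` (`Dlt_prime_pow`, `norm_gG_le_one`), `Y/τ ≤ 1/6`:
`‖F1 - F0‖ ≤ 2 (Y/τ)/(1 - Y/τ) ≤ 4 Y/τ`.
`facL_lin`: for `k = 1` the sums have the terms `e = 0, 1` only and are linear in the parameter. For `k = 2` also the term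
`e = 2` is `0`: `Dlt (p^2) r = gG (p^4 r) - gG (p^2 r) = 1 - 1` because `p^2 r` is an integer (`gG_of_den_one`, `gG_int`).
`facL_cube` (`k ≥ 3`): `‖F0‖ ≤ √(2/p^3) ≤ 2/p` (`norm_gG_le`), `τ` times the term `e = 1` is `Y ‖Dlt p r‖ ≤ Y (√(2/p^(k-2)) + √(2/p^k))
≤ 4 Y/√p` (the denominator of `p^2 r` is `p^(k-2)`, see Delta.lean / LocalPrime.lean), and `τ ∑_{e ≥ 2} 2 (Y/τ)^e ≤ 4 Y^2`. -/

set_option autoImplicit false

namespace Pool.Agent.H.MP_b3c6db_nt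

open Finset

/-- the local sum with parameter `y` -/
noncomputable def LF (p k : ℕ) (r : ℚ) (y : ℝ) : ℂ :=
  ∑ e ∈ range (k + 1), ((y : ℝ) : ℂ) ^ e * Dlt (p ^ e) r

/-- finite geometric sums -/
private theorem NLFacL_geom (y : ℝ) (hy0 : 0 ≤ y) (hy : y ≤ 1 / 6) (n : ℕ) :
    ∑ e ∈ range n, y ^ (e + 1) ≤ 2 * y := by
  have h : ∑ e ∈ range n, y ^ (e + 1) ≤ 2 * y * (1 - y ^ n) := by
    induction n with
    | zero => simp
    | succ n ih =>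
      rw [Finset.sum_range_succ]
      have h1 : 0 ≤ y ^ n := pow_nonneg hy0 n
      have h2 : y ^ (n + 1) = y ^ n * y := pow_succ y n
      rw [h2]
      have h3 : 0 ≤ y ^ n * y := mul_nonneg h1 hy0
      have h4 : 0 ≤ y ^ n * y * (1 - 2 * y) := mul_nonneg h3 (by linarith)
      nlinarith
  have h1 : 0 ≤ y ^ n := pow_nonneg hy0 n
  have h2 : 0 ≤ y * y ^ n := mul_nonneg hy0 h1
  nlinarith

private theorem NLFacL_LF (p k : ℕ) (r : ℚ) (y : ℝ) :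
    LF p k r y = Dlt (p ^ 0) r + ∑ e ∈ range k, ((y : ℝ) : ℂ) ^ (e + 1) * Dlt (p ^ (e + 1)) r := by
  unfold LF
  rw [Finset.sum_range_succ', pow_zero, one_mul, add_comm]

private theorem NLFacL_LF0 (p k : ℕ) (r : ℚ) : LF p k r 0 = Dlt (p ^ 0) r := by
  rw [NLFacL_LF]
  have : ∑ e ∈ range k, ((0 : ℝ) : ℂ) ^ (e + 1) * Dlt (p ^ (e + 1)) r = 0 := by
    apply Finset.sum_eq_zero
    intro e _
    rw [Complex.ofReal_zero, zero_pow (Nat.succ_ne_zero e), zero_mul]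
  rw [this, add_zero]

private theorem NLFacL_two (p : ℕ) (r : ℚ) (hp : p.Prime) (e : ℕ) : ‖Dlt (p ^ (e + 1)) r‖ ≤ 2 := by
  rw [Dlt_prime_pow p e hp r]
  refine (norm_sub_le _ _).trans ?_
  have h1 := norm_gG_le_one (((p : ℚ) ^ (e + 1)) ^ 2 * r)
  have h2 := norm_gG_le_one (((p : ℚ) ^ e) ^ 2 * r)
  linarith

private theorem NLFacL_norm (y : ℝ) (hy : 0 ≤ y) (n : ℕ) : ‖((y : ℝ) : ℂ) ^ n‖ = y ^ n := by
  rw [norm_pow, Complex.norm_real, Real.norm_of_nonneg hy]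

theorem facL_diff (p k : ℕ) (r : ℚ) (hp : p.Prime) (hk : 1 ≤ k) (hr : r.den = p ^ k) (Y τ : ℝ)
    (hτ : 1 ≤ τ) (hY0 : 0 < Y) (hY1 : Y ≤ 1 / 6) :
    τ * ‖LF p k r (Y / τ) - LF p k r 0‖ ≤ 4 * Y := by
  have hτ0 : 0 < τ := by linarith
  set y : ℝ := Y / τ with hy
  have hy0 : 0 ≤ y := by positivity
  have hyY : τ * y = Y := by rw [hy]; field_simp
  have hy1 : y ≤ 1 / 6 := by
    have : y ≤ Y := by rw [hy]; exact div_le_self hY0.le hτ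
    linarith
  have h1 : ‖LF p k r y - LF p k r 0‖ ≤ 4 * y := by
    rw [NLFacL_LF p k r y, NLFacL_LF0, add_sub_cancel_left]
    calc ‖∑ e ∈ range k, ((y : ℝ) : ℂ) ^ (e + 1) * Dlt (p ^ (e + 1)) r‖
        ≤ ∑ e ∈ range k, ‖((y : ℝ) : ℂ) ^ (e + 1) * Dlt (p ^ (e + 1)) r‖ := norm_sum_le _ _
      _ ≤ ∑ e ∈ range k, y ^ (e + 1) * 2 := by
          apply Finset.sum_le_sum
          intro e _
          rw [norm_mul, NLFacL_norm y hy0]
          exact mul_le_mul_of_nonneg_left (NLFacL_two p r hp e) (pow_nonneg hy0 _)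
      _ = (∑ e ∈ range k, y ^ (e + 1)) * 2 := by rw [Finset.sum_mul]
      _ ≤ 4 * y := by linarith [NLFacL_geom y hy0 hy1 k]
  calc τ * ‖LF p k r y - LF p k r 0‖ ≤ τ * (4 * y) := mul_le_mul_of_nonneg_left h1 hτ0.le
    _ = 4 * (τ * y) := by ring
    _ = 4 * Y := by rw [hyY]

theorem facL_lin (p k : ℕ) (r : ℚ) (hp : p.Prime) (hk : 1 ≤ k) (hk2 : k ≤ 2) (hr : r.den = p ^ k)
    (Y τ : ℝ) (hτ : 1 ≤ τ) :
    LF p k r 0 + (τ : ℂ) * (LF p k r (Y / τ) - LF p k r 0) = LF p k r Y := by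
  have hτ0 : τ ≠ 0 := by linarith
  have hτC : (τ : ℂ) ≠ 0 := by exact_mod_cast hτ0
  rw [NLFacL_LF0, NLFacL_LF p k r (Y / τ), NLFacL_LF p k r Y]
  have hcase : k = 1 ∨ k = 2 := by omega
  rcases hcase with rfl | rfl
  · rw [Finset.sum_range_one, Finset.sum_range_one]
    push_cast
    field_simp
    ring
  · have h2 : Dlt (p ^ (1 + 1)) r = 0 := by
      rw [Dlt_prime_pow p 1 hp r]
      have a1 := Ge_one p 2 r hr 2 (by norm_num)
      have a2 := Ge_one p 2 r hr 1 (by norm_num)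
      unfold Ge at a1 a2
      rw [show (1 + 1 : ℕ) = 2 from rfl, a1, a2, sub_self]
    simp only [Finset.sum_range_succ, Finset.sum_range_zero, zero_add]
    rw [h2]
    push_cast
    field_simp
    ring

theorem facL_cube (p k : ℕ) (r : ℚ) (hp : p.Prime) (hk : 3 ≤ k) (hr : r.den = p ^ k) (Y τ : ℝ)
    (hτ : 1 ≤ τ) (hY0 : 0 < Y) (hY1 : Y ≤ 1 / 6) :
    ‖LF p k r 0 + (τ : ℂ) * (LF p k r (Y / τ) - LF p k r 0)‖ ≤
      2 / p + 4 * Y / Real.sqrt p + 4 * Y ^ 2 := by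
  have hτ0 : 0 < τ := by linarith
  have hτC : (τ : ℂ) ≠ 0 := by exact_mod_cast hτ0.ne'
  have hp0 : (0 : ℝ) < p := by exact_mod_cast hp.pos
  have hp2 : (2 : ℝ) ≤ p := by exact_mod_cast hp.two_le
  set y : ℝ := Y / τ with hy
  have hy0 : 0 ≤ y := by positivity
  have hyY : τ * y = Y := by rw [hy]; field_simp
  have hyle : y ≤ Y := by rw [hy]; exact div_le_self hY0.le hτ
  have hy1 : y ≤ 1 / 6 := by linarith
  obtain ⟨m, rfl⟩ : ∃ m, k = m + 1 := ⟨k - 1, by omega⟩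
  have hyC : (τ : ℂ) * ((y : ℝ) : ℂ) = ((Y : ℝ) : ℂ) := by rw [← hyY]; push_cast; ring
  have hexp : LF p (m + 1) r 0 + (τ : ℂ) * (LF p (m + 1) r y - LF p (m + 1) r 0) =
      Dlt (p ^ 0) r + ((Y : ℝ) : ℂ) * Dlt (p ^ (0 + 1)) r +
      ((Y : ℝ) : ℂ) * ∑ e ∈ range m, ((y : ℝ) : ℂ) ^ (e + 1) * Dlt (p ^ (e + 1 + 1)) r := by
    rw [NLFacL_LF0, NLFacL_LF p (m + 1) r y, add_sub_cancel_left, Finset.sum_range_succ', mul_add,
      Finset.mul_sum, Finset.mul_sum, zero_add, pow_one]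
    have : ∀ e ∈ range m, (τ : ℂ) * (((y : ℝ) : ℂ) ^ (e + 1 + 1) * Dlt (p ^ (e + 1 + 1)) r) =
        ((Y : ℝ) : ℂ) * (((y : ℝ) : ℂ) ^ (e + 1) * Dlt (p ^ (e + 1 + 1)) r) := by
      intro e _
      rw [← hyC, pow_succ ((y : ℝ) : ℂ) (e + 1)]
      ring
    rw [Finset.sum_congr rfl this, ← hyC]
    ring
  rw [hexp]
  have hs0 : 0 < Real.sqrt p := Real.sqrt_pos.2 hp0
  have hsp : Real.sqrt p * Real.sqrt p = p := Real.mul_self_sqrt hp0.le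
  have hs2 : Real.sqrt (2 * p) ≤ 2 * Real.sqrt p := by
    rw [Real.sqrt_le_left (by positivity), mul_pow, Real.sq_sqrt hp0.le]
    linarith
  have hG0 : ‖gG r‖ ≤ Real.sqrt (2 * p) * (1 / (p : ℝ)) ^ 2 := by
    have := norm_Ge_le p (m + 1) r hp hr 0 2 (by omega) (by norm_num)
    unfold Ge at this
    rwa [pow_zero, one_pow, one_mul, Nat.sub_zero] at this
  have hG1 : ‖gG (((p : ℚ) ^ (0 + 1)) ^ 2 * r)‖ ≤ Real.sqrt (2 * p) * (1 / (p : ℝ)) := by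
    have := norm_Ge_le p (m + 1) r hp hr 1 2 (by omega) (by norm_num)
    unfold Ge at this
    rw [show 2 - 1 = 1 from rfl, pow_one (1 / (p : ℝ))] at this
    rwa [zero_add]
  have hsle : Real.sqrt (2 * p) ≤ 2 * p := by
    rw [Real.sqrt_le_left (by positivity)]
    nlinarith
  have hinv : 1 / (p : ℝ) ≤ 1 := by
    rw [div_le_one hp0]; linarith
  have hinv0 : 0 < 1 / (p : ℝ) := by positivity
  have hkey : Real.sqrt (2 * p) * (1 / (p : ℝ)) ≤ 2 / Real.sqrt p := by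
    calc Real.sqrt (2 * p) * (1 / (p : ℝ)) ≤ 2 * Real.sqrt p * (1 / (p : ℝ)) :=
          mul_le_mul_of_nonneg_right hs2 hinv0.le
      _ = 2 / Real.sqrt p := by
          rw [eq_div_iff hs0.ne']
          calc 2 * Real.sqrt p * (1 / (p : ℝ)) * Real.sqrt p
              = 2 * (Real.sqrt p * Real.sqrt p) * (1 / (p : ℝ)) := by ring
            _ = 2 := by rw [hsp]; field_simp
  have hA : ‖Dlt (p ^ 0) r‖ ≤ 2 / p := by
    rw [pow_zero, Dlt_one]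
    refine hG0.trans ?_
    calc Real.sqrt (2 * p) * (1 / (p : ℝ)) ^ 2 ≤ 2 * p * (1 / (p : ℝ)) ^ 2 :=
          mul_le_mul_of_nonneg_right hsle (by positivity)
      _ = 2 / p := by field_simp
  have hB : ‖Dlt (p ^ (0 + 1)) r‖ ≤ 4 / Real.sqrt p := by
    rw [Dlt_prime_pow p 0 hp r, pow_zero, one_pow, one_mul]
    refine (norm_sub_le _ _).trans ?_
    have h1 : Real.sqrt (2 * p) * (1 / (p : ℝ)) ^ 2 ≤ Real.sqrt (2 * p) * (1 / (p : ℝ)) := by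
      apply mul_le_mul_of_nonneg_left _ (Real.sqrt_nonneg _)
      rw [sq]
      nlinarith
    have h2 : (4 : ℝ) / Real.sqrt p = 2 / Real.sqrt p + 2 / Real.sqrt p := by ring
    rw [h2]
    exact add_le_add (hG1.trans hkey) ((hG0.trans h1).trans hkey)
  have hC : ‖∑ e ∈ range m, ((y : ℝ) : ℂ) ^ (e + 1) * Dlt (p ^ (e + 1 + 1)) r‖ ≤ 4 * y := by
    calc ‖∑ e ∈ range m, ((y : ℝ) : ℂ) ^ (e + 1) * Dlt (p ^ (e + 1 + 1)) r‖
        ≤ ∑ e ∈ range m, ‖((y : ℝ) : ℂ) ^ (e + 1) * Dlt (p ^ (e + 1 + 1)) r‖ := norm_sum_le _ _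
      _ ≤ ∑ e ∈ range m, y ^ (e + 1) * 2 := by
          apply Finset.sum_le_sum
          intro e _
          rw [norm_mul, NLFacL_norm y hy0]
          exact mul_le_mul_of_nonneg_left (NLFacL_two p r hp (e + 1)) (pow_nonneg hy0 _)
      _ = (∑ e ∈ range m, y ^ (e + 1)) * 2 := by rw [Finset.sum_mul]
      _ ≤ 4 * y := by linarith [NLFacL_geom y hy0 hy1 m]
  have hYn : ‖((Y : ℝ) : ℂ)‖ = Y := by rw [Complex.norm_real, Real.norm_of_nonneg hY0.le]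
  refine (norm_add_le _ _).trans (add_le_add ((norm_add_le _ _).trans (add_le_add hA ?_)) ?_)
  · rw [norm_mul, hYn]
    calc Y * ‖Dlt (p ^ (0 + 1)) r‖ ≤ Y * (4 / Real.sqrt p) := mul_le_mul_of_nonneg_left hB hY0.le
      _ = 4 * Y / Real.sqrt p := by ring
  · rw [norm_mul, hYn]
    calc Y * ‖∑ e ∈ range m, ((y : ℝ) : ℂ) ^ (e + 1) * Dlt (p ^ (e + 1 + 1)) r‖ ≤ Y * (4 * y) :=
          mul_le_mul_of_nonneg_left hC hY0.le
      _ ≤ Y * (4 * Y) := mul_le_mul_of_nonneg_left (by linarith) hY0.le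
      _ = 4 * Y ^ 2 := by ring

end Pool.Agent.H.MP_b3c6db_nt
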