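import Pool.Agent.H.MP_b3c6db_nt.NL.Prod
import Pool.Agent.H.MP_b3c6db_nt.NC.LocB

/-! The local inequality for the signed combination.

PROOF. `L = {p ∈ S : √P < p ≤ P}`, `Q = ∏_{p ∈ S, p ∉ L} F0 p`; `F1 = F0` outside `L`, so the bracket is
`V = Q (τ ∏_L F1 - (τ-1) ∏_L F0)`.
`L = ∅`: `V = ∏_S F0`; `locB` with `F = F0` (for `Y < p ≤ P` we have `p ≤ √P`), and `4/√P ≤ 10^8/√P`.
`L = {p0}`: `V = Q G`, `G = F0 p0 + τ (F1 p0 - F0 p0)`. First alternative of `hL2`: `locB` with `F = Function.update F0 p0 G`.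
Second alternative: `‖Q‖ ≤ 2` and `‖G‖ ≤ 10^7/√P`.
`‖Q‖ ≤ 2`: factors with `p ≤ Y` have norm `≤ exp ‖ζ‖ ≤ exp (3/2 e p)`, product `≤ exp (3/200) ≤ 2`; those with `Y < p ≤ √P`
and `p > P` have norm `≤ 1` (`exp (-(log p/5)) ≤ 1`, `√(2/p) ≤ 1`).
At least two elements `p ≠ p'` in `L`: `prod_tau` with `a = 2/√p`, `b = 2400/√p`: `‖τ ∏ F1 - (τ-1) ∏ F0‖ ≤ ∏_L 2402/√p ≤ 2402²/(√p √p')
≤ 2402²/√P`, the other factors being `≤ 1` (`√p ≥ P^(1/4) ≥ 10^4`), `√p √p' ≥ √P` as `p, p' ≥ √P`.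
In the norm cases `Re (K V) ≥ -‖K‖ ‖V‖`. -/

set_option autoImplicit false

namespace Pool.Agent.H.MP_b3c6db_nt

open Finset

private lemma NLLocL_re (K G : ℂ) (M c : ℝ) (hKM : ‖K‖ ≤ M) (hG : ‖G‖ ≤ c) :
    -(M * c) ≤ (K * G).re := by
  have h1 := Complex.abs_re_le_norm (K * G)
  rw [norm_mul] at h1
  have h2 : ‖K‖ * ‖G‖ ≤ M * c :=
    mul_le_mul hKM hG (norm_nonneg _) ((norm_nonneg _).trans hKM)
  have h3 := neg_abs_le (K * G).re
  linarith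

private lemma NLLocL_Q (S : Finset ℕ) (F0 : ℕ → ℂ) (e : ℕ → ℝ) (Y : ℝ)
    (hA : ∀ p ∈ S, (p : ℝ) ≤ Y → ∃ R : ℝ, ∃ ζ : ℂ, 0 ≤ R ∧ R ≤ 1 ∧
      F0 p = ((R : ℝ) : ℂ) * Complex.exp ζ ∧ ‖ζ‖ ≤ 3 / 2 * e p)
    (hAs : ∑ p ∈ S.filter (fun p : ℕ => (p : ℝ) ≤ Y), e p ≤ 1 / 100)
    (hB : ∀ p ∈ S, Y < p → ‖F0 p‖ ≤ 1) : ‖∏ p ∈ S, F0 p‖ ≤ 2 := by
  classical
  rw [norm_prod, ← Finset.prod_filter_mul_prod_filter_not S (fun p : ℕ => (p : ℝ) ≤ Y)]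
  have h1 : ∏ p ∈ S.filter (fun p : ℕ => (p : ℝ) ≤ Y), ‖F0 p‖ ≤
      ∏ p ∈ S.filter (fun p : ℕ => (p : ℝ) ≤ Y), Real.exp (3 / 2 * e p) := by
    apply Finset.prod_le_prod (fun _ _ => norm_nonneg _)
    intro p hp
    obtain ⟨hp1, hp2⟩ := Finset.mem_filter.1 hp
    obtain ⟨R, ζ, hR0, hR1, hF, hz⟩ := hA p hp1 hp2
    rw [hF, norm_mul, Complex.norm_real, Real.norm_of_nonneg hR0, Complex.norm_exp]
    have h2 : Real.exp ζ.re ≤ Real.exp (3 / 2 * e p) :=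
      Real.exp_le_exp.2 ((Complex.re_le_norm ζ).trans hz)
    have h3 := Real.exp_pos ζ.re
    calc R * Real.exp ζ.re ≤ 1 * Real.exp ζ.re := mul_le_mul_of_nonneg_right hR1 h3.le
      _ ≤ Real.exp (3 / 2 * e p) := by rw [one_mul]; exact h2
  have h2 : ∏ p ∈ S.filter (fun p : ℕ => (p : ℝ) ≤ Y), Real.exp (3 / 2 * e p) ≤ 2 := by
    rw [← Real.exp_sum, ← Finset.mul_sum]
    have h4 : Real.exp (3 / 2 * ∑ p ∈ S.filter (fun p : ℕ => (p : ℝ) ≤ Y), e p) ≤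
        Real.exp (1 / 2) := by
      apply Real.exp_le_exp.2
      linarith
    refine h4.trans ?_
    have h5 : Real.exp (1 / 2) * Real.exp (1 / 2) = Real.exp 1 := by
      rw [← Real.exp_add]
      norm_num
    have h6 := Real.exp_one_lt_d9
    have h7 := Real.exp_pos (1 / 2)
    nlinarith
  have h3 : ∏ p ∈ S.filter (fun p : ℕ => ¬ (p : ℝ) ≤ Y), ‖F0 p‖ ≤ 1 := by
    apply Finset.prod_le_one (fun _ _ => norm_nonneg _)
    intro p hp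
    obtain ⟨hp1, hp2⟩ := Finset.mem_filter.1 hp
    exact hB p hp1 (not_le.1 hp2)
  calc (∏ p ∈ S.filter (fun p : ℕ => (p : ℝ) ≤ Y), ‖F0 p‖) *
        ∏ p ∈ S.filter (fun p : ℕ => ¬ (p : ℝ) ≤ Y), ‖F0 p‖ ≤ 2 * 1 :=
        mul_le_mul (h1.trans h2) h3 (Finset.prod_nonneg fun _ _ => norm_nonneg _) (by norm_num)
    _ = 2 := mul_one _

private lemma NLLocL_two (L : Finset ℕ) (P : ℝ) (hP : 10 ^ 16 ≤ P)
    (hL : ∀ p ∈ L, Real.sqrt P < (p : ℝ)) {p q : ℕ} (hp : p ∈ L) (hq : q ∈ L) (hpq : q ≠ p) :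
    ∏ x ∈ L, (2 / Real.sqrt x + 2400 / Real.sqrt x) ≤ 2402 ^ 2 / Real.sqrt P := by
  classical
  have hP0 : (0 : ℝ) < P := by linarith [show (0 : ℝ) < 10 ^ 16 by norm_num]
  have hsP : 0 < Real.sqrt P := Real.sqrt_pos.2 hP0
  have hsP8 : (10 : ℝ) ^ 8 ≤ Real.sqrt P := by
    apply Real.le_sqrt_of_sq_le
    calc ((10 : ℝ) ^ 8) ^ 2 = 10 ^ 16 := by norm_num
      _ ≤ P := hP
  have h4 : ∀ x ∈ L, (10 : ℝ) ^ 4 ≤ Real.sqrt x := by
    intro x hx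
    apply Real.le_sqrt_of_sq_le
    calc ((10 : ℝ) ^ 4) ^ 2 = 10 ^ 8 := by norm_num
      _ ≤ Real.sqrt P := hsP8
      _ ≤ x := (hL x hx).le
  have hpos : ∀ x ∈ L, 0 < Real.sqrt x := fun x hx => lt_of_lt_of_le (by norm_num) (h4 x hx)
  have hg0 : ∀ x ∈ L, 0 ≤ 2 / Real.sqrt x + 2400 / Real.sqrt x := by
    intro x hx
    have := hpos x hx
    positivity
  have hg1 : ∀ x ∈ L, 2 / Real.sqrt x + 2400 / Real.sqrt x ≤ 1 := by
    intro x hx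
    rw [← add_div, div_le_one (hpos x hx)]
    have := h4 x hx
    norm_num at this ⊢
    linarith
  have hq' : q ∈ L.erase p := Finset.mem_erase.2 ⟨hpq, hq⟩
  rw [← Finset.mul_prod_erase L _ hp, ← Finset.mul_prod_erase (L.erase p) _ hq']
  have h5 : ∏ x ∈ (L.erase p).erase q, (2 / Real.sqrt x + 2400 / Real.sqrt x) ≤ 1 := by
    apply Finset.prod_le_one
    · intro x hx
      exact hg0 x (Finset.mem_of_mem_erase (Finset.mem_of_mem_erase hx))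
    · intro x hx
      exact hg1 x (Finset.mem_of_mem_erase (Finset.mem_of_mem_erase hx))
  have h6 : Real.sqrt P ≤ Real.sqrt p * Real.sqrt q := by
    rw [← Real.sqrt_mul (Nat.cast_nonneg p)]
    apply Real.sqrt_le_sqrt
    have h7 := hL p hp
    have h8 := hL q hq
    calc P = Real.sqrt P * Real.sqrt P := (Real.mul_self_sqrt hP0.le).symm
      _ ≤ (p : ℝ) * q := mul_le_mul h7.le h8.le hsP.le (Nat.cast_nonneg p)
  have hp0 := hpos p hp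
  have hq0 := hpos q hq
  calc (2 / Real.sqrt p + 2400 / Real.sqrt p) * ((2 / Real.sqrt q + 2400 / Real.sqrt q) *
        ∏ x ∈ (L.erase p).erase q, (2 / Real.sqrt x + 2400 / Real.sqrt x))
      ≤ (2 / Real.sqrt p + 2400 / Real.sqrt p) * ((2 / Real.sqrt q + 2400 / Real.sqrt q) * 1) :=
        mul_le_mul_of_nonneg_left (mul_le_mul_of_nonneg_left h5 (hg0 q hq)) (hg0 p hp)
    _ = 2402 ^ 2 / (Real.sqrt p * Real.sqrt q) := by
        field_simp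
        norm_num
    _ ≤ 2402 ^ 2 / Real.sqrt P := by
        apply div_le_div_of_nonneg_left (by norm_num) hsP h6

theorem locL (S : Finset ℕ) (F0 F1 : ℕ → ℂ) (e : ℕ → ℝ) (Y P τ : ℝ) (hP : 10 ^ 16 ≤ P)
    (hYP : Y ≤ Real.sqrt P) (hτ : 1 ≤ τ) (hS : ∀ p ∈ S, 2 ≤ p)
    (hA : ∀ p ∈ S, (p : ℝ) ≤ Y → ∃ R : ℝ, ∃ ζ : ℂ, 0 ≤ R ∧ R ≤ 1 ∧
      F0 p = ((R : ℝ) : ℂ) * Complex.exp ζ ∧ ‖ζ‖ ≤ 3 / 2 * e p)
    (hAs : ∑ p ∈ S.filter (fun p : ℕ => (p : ℝ) ≤ Y), e p ≤ 1 / 100)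
    (hB : ∀ p ∈ S, Y < p → (p : ℝ) ≤ Real.sqrt P → (∃ R : ℝ, ∃ ζ : ℂ, 0 ≤ R ∧ R ≤ 1 ∧
      F0 p = ((R : ℝ) : ℂ) * Complex.exp ζ ∧ ‖ζ‖ ≤ 3 / 2 * (Real.log p / (100 * Real.log P))) ∧
      ‖F0 p‖ ≤ Real.exp (-(Real.log p / 5)))
    (hE : ∀ p ∈ S, (p : ℝ) ≤ Real.sqrt P → F1 p = F0 p)
    (hE2 : ∀ p ∈ S, P < p → F1 p = F0 p)
    (hC : ∀ p ∈ S, P < p → ‖F0 p‖ ≤ Real.sqrt (2 / p))
    (hL1 : ∀ p ∈ S, Real.sqrt P < p → (p : ℝ) ≤ P →
      ‖F0 p‖ ≤ 2 / Real.sqrt p ∧ τ * ‖F1 p - F0 p‖ ≤ 2400 / Real.sqrt p)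
    (hL2 : ∀ p ∈ S, Real.sqrt P < p → (p : ℝ) ≤ P →
      ((∃ R : ℝ, ∃ ζ : ℂ, 0 ≤ R ∧ R ≤ 1 ∧
        F0 p + (τ : ℂ) * (F1 p - F0 p) = ((R : ℝ) : ℂ) * Complex.exp ζ ∧
        ‖ζ‖ ≤ 3 / 2 * (Real.log p / (100 * Real.log P))) ∧
        ‖F0 p + (τ : ℂ) * (F1 p - F0 p)‖ ≤ Real.exp (-(Real.log p / 5))) ∨
      ‖F0 p + (τ : ℂ) * (F1 p - F0 p)‖ ≤ 10 ^ 7 / Real.sqrt P)
    (K : ℂ) (M : ℝ) (hK0 : 0 ≤ K.re) (hK1 : |K.im| ≤ 1 / 10 * K.re) (hKM : ‖K‖ ≤ M) :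
    -(M * (10 ^ 8 / Real.sqrt P)) ≤
      (K * ((τ : ℂ) * ∏ p ∈ S, F1 p - ((τ - 1 : ℝ) : ℂ) * ∏ p ∈ S, F0 p)).re := by
  classical
  have hP0 : (0 : ℝ) < P := by linarith [show (0 : ℝ) < 10 ^ 16 by norm_num]
  have hP100 : (100 : ℝ) ≤ P := by linarith [show (100 : ℝ) ≤ 10 ^ 16 by norm_num]
  have hsP : 0 < Real.sqrt P := Real.sqrt_pos.2 hP0
  have hM0 : 0 ≤ M := (norm_nonneg _).trans hKM
  have hsPP : Real.sqrt P ≤ P := by
    rw [Real.sqrt_le_left hP0.le]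
    nlinarith
  obtain ⟨L, hL⟩ : ∃ L, L = S.filter (fun p : ℕ => Real.sqrt P < p ∧ (p : ℝ) ≤ P) := ⟨_, rfl⟩
  obtain ⟨N, hN⟩ : ∃ N, N = S.filter (fun p : ℕ => ¬ (Real.sqrt P < p ∧ (p : ℝ) ≤ P)) := ⟨_, rfl⟩
  have split : ∀ F : ℕ → ℂ, ∏ p ∈ S, F p = (∏ p ∈ L, F p) * ∏ p ∈ N, F p := by
    intro F
    rw [hL, hN, Finset.prod_filter_mul_prod_filter_not]
  have mL : ∀ p, p ∈ L ↔ p ∈ S ∧ Real.sqrt P < p ∧ (p : ℝ) ≤ P := by
    intro p
    rw [hL, Finset.mem_filter]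
  have mN : ∀ p, p ∈ N ↔ p ∈ S ∧ ((p : ℝ) ≤ Real.sqrt P ∨ P < p) := by
    intro p
    rw [hN, Finset.mem_filter, not_and_or, not_lt, not_le]
  have hF1N : ∏ p ∈ N, F1 p = ∏ p ∈ N, F0 p := Finset.prod_congr rfl fun p hp => by
    rcases (mN p).1 hp with ⟨h1, h2 | h2⟩
    · exact hE p h1 h2
    · exact hE2 p h1 h2
  obtain ⟨Q, hQ⟩ : ∃ Q, Q = ∏ p ∈ N, F0 p := ⟨_, rfl⟩
  have hV : (τ : ℂ) * ∏ p ∈ S, F1 p - ((τ - 1 : ℝ) : ℂ) * ∏ p ∈ S, F0 p =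
      ((τ : ℂ) * ∏ p ∈ L, F1 p - ((τ - 1 : ℝ) : ℂ) * ∏ p ∈ L, F0 p) * Q := by
    rw [split F1, split F0, hF1N, ← hQ]
    ring
  have hQ2 : ‖Q‖ ≤ 2 := by
    rw [hQ]
    refine NLLocL_Q N F0 e Y (fun p hp h => hA p ((mN p).1 hp).1 h) ?_ ?_
    · have h1 : N.filter (fun p : ℕ => (p : ℝ) ≤ Y) = S.filter (fun p : ℕ => (p : ℝ) ≤ Y) := by
        ext p
        rw [Finset.mem_filter, Finset.mem_filter, mN]
        constructor
        · rintro ⟨⟨h1, -⟩, h2⟩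
          exact ⟨h1, h2⟩
        · rintro ⟨h1, h2⟩
          exact ⟨⟨h1, Or.inl (h2.trans hYP)⟩, h2⟩
      rw [h1]
      exact hAs
    · intro p hp hYp
      rcases (mN p).1 hp with ⟨h1, h2 | h2⟩
      · refine (hB p h1 hYp h2).2.trans ?_
        rw [Real.exp_le_one_iff]
        have := Real.log_natCast_nonneg p
        linarith
      · refine (hC p h1 h2).trans ?_
        rw [← Real.sqrt_one]
        apply Real.sqrt_le_sqrt
        have h3 : (2 : ℝ) ≤ p := by exact_mod_cast hS p h1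
        rw [div_le_one (by linarith)]
        exact h3
  have hweak : ∀ c : ℝ, c ≤ 10 ^ 8 → -(M * (10 ^ 8 / Real.sqrt P)) ≤ -(M * (c / Real.sqrt P)) := by
    intro c hc
    have h1 : c / Real.sqrt P ≤ 10 ^ 8 / Real.sqrt P := div_le_div_of_nonneg_right hc hsP.le
    have h2 := mul_le_mul_of_nonneg_left h1 hM0
    linarith
  rw [hV]
  rcases Finset.eq_empty_or_nonempty L with hLe | ⟨p0, hp0⟩
  · -- no exceptional prime
    have h1 : ((τ : ℂ) * ∏ p ∈ L, F1 p - ((τ - 1 : ℝ) : ℂ) * ∏ p ∈ L, F0 p) * Q =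
        ∏ p ∈ S, F0 p := by
      rw [split F0, ← hQ, hLe, Finset.prod_empty, Finset.prod_empty]
      push_cast
      ring
    rw [h1]
    refine (hweak 4 (by norm_num)).trans ?_
    refine locB S F0 e Y P hP100 hS hA hAs ?_ (fun p hp _ h => hC p hp h) K M hK0 hK1 hKM
    intro p hp h1 h2
    refine hB p hp h1 ?_
    by_contra h3
    have h4 : p ∈ L := (mL p).2 ⟨hp, not_le.1 h3, h2⟩
    rw [hLe] at h4
    exact absurd h4 (Finset.notMem_empty p)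
  · obtain ⟨hp0S, hp0l, hp0P⟩ := (mL p0).1 hp0
    by_cases hone : ∀ p ∈ L, p = p0
    · -- one exceptional prime
      have hL1' : L = {p0} := by
        ext p
        rw [Finset.mem_singleton]
        exact ⟨fun h => hone p h, fun h => h ▸ hp0⟩
      obtain ⟨G, hG⟩ : ∃ G : ℂ, G = F0 p0 + (τ : ℂ) * (F1 p0 - F0 p0) := ⟨_, rfl⟩
      have h1 : ((τ : ℂ) * ∏ p ∈ L, F1 p - ((τ - 1 : ℝ) : ℂ) * ∏ p ∈ L, F0 p) * Q = G * Q := by
        rw [hL1', Finset.prod_singleton, Finset.prod_singleton, hG]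
        push_cast
        ring
      rw [h1]
      have h2 := hL2 p0 hp0S hp0l hp0P
      rw [← hG] at h2
      rcases h2 with h2 | h2
      · obtain ⟨F, hF⟩ : ∃ F, F = Function.update F0 p0 G := ⟨_, rfl⟩
        have hF0 : F p0 = G := by rw [hF, Function.update_self]
        have hFn : ∀ p, p ≠ p0 → F p = F0 p := fun p hp => by
          rw [hF, Function.update_of_ne hp]
        have h3 : G * Q = ∏ p ∈ S, F p := by
          rw [split F, hL1', Finset.prod_singleton, hF0, hQ]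
          congr 1
          refine Finset.prod_congr rfl fun p hp => (hFn p ?_).symm
          rintro rfl
          rcases ((mN p).1 hp).2 with h4 | h4
          · exact absurd hp0l (not_lt.2 h4)
          · exact absurd hp0P (not_le.2 h4)
        rw [h3]
        refine (hweak 4 (by norm_num)).trans ?_
        refine locB S F e Y P hP100 hS ?_ hAs ?_ ?_ K M hK0 hK1 hKM
        · intro p hp h4
          rw [hFn p (by
            rintro rfl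
            exact absurd hp0l (not_lt.2 (h4.trans hYP)))]
          exact hA p hp h4
        · intro p hp h4 h5
          by_cases h6 : p = p0
          · rw [h6, hF0]
            exact h2
          · rw [hFn p h6]
            refine hB p hp h4 ?_
            by_contra h7
            exact h6 (hone p ((mL p).2 ⟨hp, not_le.1 h7, h5⟩))
        · intro p hp h4 h5
          rw [hFn p (by
            rintro rfl
            exact absurd hp0P (not_le.2 h5))]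
          exact hC p hp h5
      · refine (hweak (2 * 10 ^ 7) (by norm_num)).trans ?_
        refine NLLocL_re K (G * Q) M _ hKM ?_
        rw [norm_mul]
        calc ‖G‖ * ‖Q‖ ≤ (10 ^ 7 / Real.sqrt P) * 2 :=
              mul_le_mul h2 hQ2 (norm_nonneg _) (by positivity)
          _ = 2 * 10 ^ 7 / Real.sqrt P := by ring
    · -- at least two exceptional primes
      push Not at hone
      obtain ⟨q, hq, hqp⟩ := hone
      refine (hweak (2402 ^ 2 * 2) (by norm_num)).trans ?_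
      refine NLLocL_re K _ M _ hKM ?_
      rw [norm_mul]
      have h1 := prod_tau L F0 F1 (fun p => 2 / Real.sqrt p) (fun p => 2400 / Real.sqrt p) τ hτ
        (fun p hp => (hL1 p ((mL p).1 hp).1 ((mL p).1 hp).2.1 ((mL p).1 hp).2.2).1)
        (fun p hp => (hL1 p ((mL p).1 hp).1 ((mL p).1 hp).2.1 ((mL p).1 hp).2.2).2)
      have h2 := NLLocL_two L P hP (fun p hp => ((mL p).1 hp).2.1) hp0 hq hqp
      calc _ ≤ (2402 ^ 2 / Real.sqrt P) * 2 :=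
            mul_le_mul (h1.trans h2) hQ2 (norm_nonneg _) (by positivity)
        _ = 2402 ^ 2 * 2 / Real.sqrt P := by ring

end Pool.Agent.H.MP_b3c6db_nt
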