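import Pool.Agent.H.MP_b3c6db_nt.NL.LocL
import Pool.Agent.H.MP_b3c6db_nt.NL.FacL
import Pool.Agent.H.MP_b3c6db_nt.NC.LocC

/-! The local theorem for the signed weights.

PROOF. As `loc_main` (NC/LocC.lean): `euler_struct (MonoidHom.id ℂ)` gives ONE family `rp` for all parameters `ρ`; use it for
`xa` and `xb`. `locL` with `S = r.den.primeFactors`, `F1 p = LF p k (rp p) (xa x P τ p)`, `F0 p = LF p k (rp p) (xb x P p)`,
`k = r.den.factorization p ≥ 1`. `hA`, `hB`: `facA` as in LocC (`xb = x` for `p ≤ √P`). `hE`, `hE2`: `xa = xb` there (for `p > P` both are `0`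
as `x p = 0`, `P ≥ √P`). `hC`: `facC`. `hL1`: `facC` gives `‖F0‖ ≤ √(2/p) ≤ 2/√p`; `facL_diff` gives `4 x p ≤ 2400/√p`.
`hL2`: `k ≤ 2`: `facL_lin` and `facA` with `ρ = x p` (first alternative, as `hB` in LocC); `k ≥ 3`: `facL_cube`:
`2/p + 4 x p/√p + 4 (x p)^2 ≤ (2 + 2400 + 1440000)/p ≤ 10^7/√P` since `p > √P`. -/

set_option autoImplicit false

namespace Pool.Agent.H.MP_b3c6db_nt

open Finset

noncomputable def xa (x : ℕ → ℝ) (P τ : ℝ) (p : ℕ) : ℝ :=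
  if (p : ℝ) ≤ Real.sqrt P then x p else x p / τ

noncomputable def xb (x : ℕ → ℝ) (P : ℝ) (p : ℕ) : ℝ :=
  if (p : ℝ) ≤ Real.sqrt P then x p else 0

private theorem NLLocM_small {P : ℝ} (hP : 10 ^ 16 ≤ P) : Real.sqrt P ≤ P := by
  rw [Real.sqrt_le_left (by linarith)]
  nlinarith

private theorem NLLocM_two {p : ℝ} (_hp : 0 < p) : Real.sqrt (2 / p) ≤ 2 / Real.sqrt p := by
  rw [Real.sqrt_div (by norm_num)]
  refine div_le_div_of_nonneg_right ?_ (Real.sqrt_nonneg p)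
  rw [Real.sqrt_le_left (by norm_num)]
  norm_num

private theorem NLLocM_cube {p y P : ℝ} (hP : 10 ^ 16 ≤ P) (hp : Real.sqrt P < p) (hy0 : 0 < y)
    (hy : y ≤ 600 / Real.sqrt p) :
    2 / p + 4 * y / Real.sqrt p + 4 * y ^ 2 ≤ 10 ^ 7 / Real.sqrt P := by
  have hP0 : 0 < Real.sqrt P := Real.sqrt_pos.2 (by linarith)
  have hp0 : 0 < p := hP0.trans hp
  have hs : 0 < Real.sqrt p := Real.sqrt_pos.2 hp0
  have hs2 : Real.sqrt p * Real.sqrt p = p := Real.mul_self_sqrt hp0.le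
  have h1 : 4 * y / Real.sqrt p ≤ 2400 / p := by
    have h0 : 4 * y / Real.sqrt p ≤ 2400 / (Real.sqrt p * Real.sqrt p) := by
      rw [div_le_div_iff₀ hs (by positivity)]
      rw [le_div_iff₀ hs] at hy
      nlinarith
    rwa [hs2] at h0
  have h2 : 4 * y ^ 2 ≤ 1440000 / p := by
    suffices h0 : 4 * y ^ 2 ≤ 1440000 / (Real.sqrt p * Real.sqrt p) by rwa [hs2] at h0
    rw [le_div_iff₀ (by positivity)]
    rw [le_div_iff₀ hs] at hy
    have h3 : (y * Real.sqrt p) * (y * Real.sqrt p) ≤ 600 * 600 :=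
      mul_self_le_mul_self (by positivity) hy
    nlinarith
  calc 2 / p + 4 * y / Real.sqrt p + 4 * y ^ 2 ≤ 2 / p + 2400 / p + 1440000 / p := by linarith
    _ = 1442402 / p := by ring
    _ ≤ 10 ^ 7 / Real.sqrt P := by
      rw [div_le_div_iff₀ hp0 hP0]
      nlinarith

theorem loc_signed (x e : ℕ → ℝ) (Y P τ : ℝ) (hP : 10 ^ 16 ≤ P) (hYP : Y ≤ Real.sqrt P)
    (hτ : 1 ≤ τ)
    (h1 : ∀ p : ℕ, p.Prime → (p : ℝ) ≤ Y → 0 < x p ∧ x p ≤ 1 ∧ 1 < x p * p ∧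
      (1 - x p) * (Real.sqrt (2 * p) / (x p * p - 1)) ≤ e p ∧ e p ≤ 1 / 2)
    (h1s : ∀ S : Finset ℕ, (∀ p ∈ S, p.Prime ∧ (p : ℝ) ≤ Y) → ∑ p ∈ S, e p ≤ 1 / 100)
    (h2 : ∀ p : ℕ, p.Prime → Y < p → (p : ℝ) ≤ P → 0 < x p ∧ x p ≤ 1 ∧ 1 < x p * p ∧
      (1 - x p) * (Real.sqrt (2 * p) / (x p * p - 1)) ≤ Real.log p / (100 * Real.log P) ∧
      x p * (1 + Real.log p / (100 * Real.log P)) ≤ Real.exp (-(Real.log p / 5)))
    (h2L : ∀ p : ℕ, p.Prime → Real.sqrt P < p → (p : ℝ) ≤ P → x p ≤ 1 / 6 ∧ x p ≤ 600 / Real.sqrt p)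
    (h3 : ∀ p : ℕ, p.Prime → P < p → x p = 0)
    (K : ℂ) (M : ℝ) (hK0 : 0 ≤ K.re) (hK1 : |K.im| ≤ 1 / 10 * K.re) (hKM : ‖K‖ ≤ M) (r : ℚ) :
    -(M * (10 ^ 8 / Real.sqrt P)) ≤
      (K * ((τ : ℂ) * ∑ v ∈ r.den.divisors, Arho (fun p => ((xa x P τ p : ℝ) : ℂ)) v * Dlt v r -
        ((τ - 1 : ℝ) : ℂ) *
          ∑ v ∈ r.den.divisors, Arho (fun p => ((xb x P p : ℝ) : ℂ)) v * Dlt v r)).re := by
  obtain ⟨rp, hrp, hE⟩ := euler_struct (MonoidHom.id ℂ) r.den r.den_ne_zero r rfl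
  have hEa := hE (fun p => ((xa x P τ p : ℝ) : ℂ))
  have hEb := hE (fun p => ((xb x P p : ℝ) : ℂ))
  simp only [MonoidHom.id_apply] at hEa hEb
  rw [hEa, hEb]
  have hk : ∀ p ∈ r.den.primeFactors, 1 ≤ r.den.factorization p := fun p hp =>
    (Nat.prime_of_mem_primeFactors hp).factorization_pos_of_dvd r.den_ne_zero
      (Nat.dvd_of_mem_primeFactors hp)
  have hsP := NLLocM_small hP
  have hl : 0 < Real.log P := Real.log_pos (by linarith)
  have hb3 : ∀ p : ℕ, p.Prime → (p : ℝ) ≤ P → Real.log p / (100 * Real.log P) ≤ 1 / 2 := by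
    intro p hpr hpP
    have hp0 : (0 : ℝ) < p := by exact_mod_cast hpr.pos
    have hl2 : Real.log p ≤ Real.log P := Real.log_le_log hp0 hpP
    rw [div_le_div_iff₀ (by positivity) (by norm_num)]
    linarith
  have xb1 : ∀ p : ℕ, (p : ℝ) ≤ Real.sqrt P → xb x P p = x p := fun p h => if_pos h
  have xb2 : ∀ p : ℕ, Real.sqrt P < p → xb x P p = 0 := fun p h => if_neg (not_le.2 h)
  have xa1 : ∀ p : ℕ, (p : ℝ) ≤ Real.sqrt P → xa x P τ p = x p := fun p h => if_pos h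
  have xa2 : ∀ p : ℕ, Real.sqrt P < p → xa x P τ p = x p / τ := fun p h => if_neg (not_le.2 h)
  refine locL r.den.primeFactors
    (fun p => LF p (r.den.factorization p) (rp p) (xb x P p))
    (fun p => LF p (r.den.factorization p) (rp p) (xa x P τ p)) e Y P τ hP hYP hτ
    ?_ ?_ ?_ ?_ ?_ ?_ ?_ ?_ ?_ K M hK0 hK1 hKM
  · intro p hp
    exact (Nat.prime_of_mem_primeFactors hp).two_le
  · intro p hp hpY
    obtain ⟨hx0, hx1, hxp, hb, hb2⟩ := h1 p (Nat.prime_of_mem_primeFactors hp) hpY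
    show ∃ R : ℝ, ∃ ζ : ℂ, 0 ≤ R ∧ R ≤ 1 ∧
      LF p (r.den.factorization p) (rp p) (xb x P p) = ((R : ℝ) : ℂ) * Complex.exp ζ ∧
      ‖ζ‖ ≤ 3 / 2 * e p
    rw [xb1 p (hpY.trans hYP)]
    exact (facA p _ (rp p) (Nat.prime_of_mem_primeFactors hp) (hk p hp) (hrp p hp) (x p) (e p)
      hx0 hx1 hxp hb hb2).1
  · refine h1s _ fun p hp => ?_
    rw [mem_filter] at hp
    exact ⟨Nat.prime_of_mem_primeFactors hp.1, hp.2⟩
  · intro p hp hpY hpP
    have hpr := Nat.prime_of_mem_primeFactors hp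
    obtain ⟨hx0, hx1, hxp, hb, hb2⟩ := h2 p hpr hpY (hpP.trans hsP)
    obtain ⟨h4, h5⟩ := facA p _ (rp p) hpr (hk p hp) (hrp p hp) (x p)
      (Real.log p / (100 * Real.log P)) hx0 hx1 hxp hb (hb3 p hpr (hpP.trans hsP))
    show (∃ R : ℝ, ∃ ζ : ℂ, 0 ≤ R ∧ R ≤ 1 ∧
      LF p (r.den.factorization p) (rp p) (xb x P p) = ((R : ℝ) : ℂ) * Complex.exp ζ ∧
      ‖ζ‖ ≤ 3 / 2 * (Real.log p / (100 * Real.log P))) ∧
      ‖LF p (r.den.factorization p) (rp p) (xb x P p)‖ ≤ Real.exp (-(Real.log p / 5))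
    rw [xb1 p hpP]
    exact ⟨h4, h5.trans hb2⟩
  · intro p hp hpP
    show LF p (r.den.factorization p) (rp p) (xa x P τ p) =
      LF p (r.den.factorization p) (rp p) (xb x P p)
    rw [xa1 p hpP, xb1 p hpP]
  · intro p hp hpP
    show LF p (r.den.factorization p) (rp p) (xa x P τ p) =
      LF p (r.den.factorization p) (rp p) (xb x P p)
    rw [xa2 p (hsP.trans_lt hpP), xb2 p (hsP.trans_lt hpP),
      h3 p (Nat.prime_of_mem_primeFactors hp) hpP, zero_div]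
  · intro p hp hpP
    have hpr := Nat.prime_of_mem_primeFactors hp
    have h4 := facC p _ (rp p) hpr (hk p hp) (hrp p hp)
    show ‖LF p (r.den.factorization p) (rp p) (xb x P p)‖ ≤ Real.sqrt (2 / p)
    rw [xb2 p (hsP.trans_lt hpP)]
    unfold LF
    rw [Complex.ofReal_zero]
    exact h4
  · intro p hp hpS hpP
    have hpr := Nat.prime_of_mem_primeFactors hp
    have hp0 : (0 : ℝ) < p := by exact_mod_cast hpr.pos
    have h4 := facC p _ (rp p) hpr (hk p hp) (hrp p hp)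
    obtain ⟨hx0, -⟩ := h2 p hpr (hYP.trans_lt hpS) hpP
    obtain ⟨hx6, hx600⟩ := h2L p hpr hpS hpP
    show ‖LF p (r.den.factorization p) (rp p) (xb x P p)‖ ≤ 2 / Real.sqrt p ∧
      τ * ‖LF p (r.den.factorization p) (rp p) (xa x P τ p) -
        LF p (r.den.factorization p) (rp p) (xb x P p)‖ ≤ 2400 / Real.sqrt p
    rw [xb2 p hpS, xa2 p hpS]
    refine ⟨?_, ?_⟩
    · unfold LF
      rw [Complex.ofReal_zero]
      exact h4.trans (NLLocM_two hp0)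
    · refine (facL_diff p _ (rp p) hpr (hk p hp) (hrp p hp) (x p) τ hτ hx0 hx6).trans ?_
      calc 4 * x p ≤ 4 * (600 / Real.sqrt p) := by linarith
        _ = 2400 / Real.sqrt p := by ring
  · intro p hp hpS hpP
    have hpr := Nat.prime_of_mem_primeFactors hp
    obtain ⟨hx0, hx1, hxp, hb, hb2⟩ := h2 p hpr (hYP.trans_lt hpS) hpP
    obtain ⟨hx6, hx600⟩ := h2L p hpr hpS hpP
    show ((∃ R : ℝ, ∃ ζ : ℂ, 0 ≤ R ∧ R ≤ 1 ∧
        LF p (r.den.factorization p) (rp p) (xb x P p) +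
          (τ : ℂ) * (LF p (r.den.factorization p) (rp p) (xa x P τ p) -
            LF p (r.den.factorization p) (rp p) (xb x P p)) = ((R : ℝ) : ℂ) * Complex.exp ζ ∧
        ‖ζ‖ ≤ 3 / 2 * (Real.log p / (100 * Real.log P))) ∧
        ‖LF p (r.den.factorization p) (rp p) (xb x P p) +
          (τ : ℂ) * (LF p (r.den.factorization p) (rp p) (xa x P τ p) -
            LF p (r.den.factorization p) (rp p) (xb x P p))‖ ≤ Real.exp (-(Real.log p / 5))) ∨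
      ‖LF p (r.den.factorization p) (rp p) (xb x P p) +
          (τ : ℂ) * (LF p (r.den.factorization p) (rp p) (xa x P τ p) -
            LF p (r.den.factorization p) (rp p) (xb x P p))‖ ≤ 10 ^ 7 / Real.sqrt P
    rw [xb2 p hpS, xa2 p hpS]
    rcases Nat.lt_or_ge (r.den.factorization p) 3 with hk3 | hk3
    · left
      rw [facL_lin p _ (rp p) hpr (hk p hp) (by omega) (hrp p hp) (x p) τ hτ]
      obtain ⟨h4, h5⟩ := facA p _ (rp p) hpr (hk p hp) (hrp p hp) (x p)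
        (Real.log p / (100 * Real.log P)) hx0 hx1 hxp hb (hb3 p hpr hpP)
      exact ⟨h4, h5.trans hb2⟩
    · right
      exact (facL_cube p _ (rp p) hpr hk3 (hrp p hp) (x p) τ hτ hx0 hx6).trans
        (NLLocM_cube hP hpS hx0 hx600)

end Pool.Agent.H.MP_b3c6db_nt
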