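import Mathlib

/-! A signed combination of two products.

PROOF. Write `τ ∏ F1 - (τ-1) ∏ F0 = ∏ F0 + τ (∏ F1 - ∏ F0)` and prove by induction on `L` (`Finset.induction_on`)
`‖∏ F0‖ ≤ ∏ a` and `τ ‖∏ F1 - ∏ F0‖ ≤ ∏ (a+b) - ∏ a`: with one more factor,
`F1 p ∏ F1 - F0 p ∏ F0 = F1 p (∏ F1 - ∏ F0) + (F1 p - F0 p) ∏ F0`, `‖F1 p‖ ≤ a p + b p / τ ≤ a p + b p`, so
`τ ‖..‖ ≤ (a p + b p) (∏ (a+b) - ∏ a) + b p ∏ a = (a p + b p) ∏ (a+b) - a p ∏ a`. -/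

set_option autoImplicit false

namespace Pool.Agent.H.MP_b3c6db_nt

open Finset

private theorem NLProd_ind (L : Finset ℕ) (F0 F1 : ℕ → ℂ) (a b : ℕ → ℝ) (τ : ℝ) (hτ : 1 ≤ τ)
    (ha : ∀ p ∈ L, ‖F0 p‖ ≤ a p) (hb : ∀ p ∈ L, τ * ‖F1 p - F0 p‖ ≤ b p) :
    ‖∏ p ∈ L, F0 p‖ ≤ ∏ p ∈ L, a p ∧
      τ * ‖∏ p ∈ L, F1 p - ∏ p ∈ L, F0 p‖ ≤ ∏ p ∈ L, (a p + b p) - ∏ p ∈ L, a p := by
  induction L using Finset.induction_on with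
  | empty => simp
  | insert q L hq ih =>
    obtain ⟨h1, h2⟩ := ih (fun p hp => ha p (Finset.mem_insert_of_mem hp))
      (fun p hp => hb p (Finset.mem_insert_of_mem hp))
    have haq := ha q (Finset.mem_insert_self q L)
    have hbq := hb q (Finset.mem_insert_self q L)
    rw [Finset.prod_insert hq, Finset.prod_insert hq, Finset.prod_insert hq, Finset.prod_insert hq]
    have hn0 : 0 ≤ ‖F0 q‖ := norm_nonneg _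
    have hnd : 0 ≤ ‖F1 q - F0 q‖ := norm_nonneg _
    have hnd1 : ‖F1 q - F0 q‖ ≤ τ * ‖F1 q - F0 q‖ := le_mul_of_one_le_left hnd hτ
    have ha0 : 0 ≤ a q := hn0.trans haq
    have hb0 : 0 ≤ b q := hnd.trans (hnd1.trans hbq)
    have hF1 : ‖F1 q‖ ≤ a q + b q := by
      calc ‖F1 q‖ = ‖F0 q + (F1 q - F0 q)‖ := by rw [add_sub_cancel]
        _ ≤ ‖F0 q‖ + ‖F1 q - F0 q‖ := norm_add_le _ _
        _ ≤ a q + b q := add_le_add haq (hnd1.trans hbq)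
    have hP0 : 0 ≤ ‖∏ p ∈ L, F0 p‖ := norm_nonneg _
    have hD0 : 0 ≤ ‖∏ p ∈ L, F1 p - ∏ p ∈ L, F0 p‖ := norm_nonneg _
    refine ⟨?_, ?_⟩
    · rw [norm_mul]
      exact mul_le_mul haq h1 hP0 ha0
    · have h3 : F1 q * ∏ p ∈ L, F1 p - F0 q * ∏ p ∈ L, F0 p =
          F1 q * (∏ p ∈ L, F1 p - ∏ p ∈ L, F0 p) + (F1 q - F0 q) * ∏ p ∈ L, F0 p := by ring
      have h4 : ‖F1 q * ∏ p ∈ L, F1 p - F0 q * ∏ p ∈ L, F0 p‖ ≤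
          ‖F1 q‖ * ‖∏ p ∈ L, F1 p - ∏ p ∈ L, F0 p‖ +
            ‖F1 q - F0 q‖ * ‖∏ p ∈ L, F0 p‖ := by
        rw [h3]
        refine (norm_add_le _ _).trans ?_
        rw [norm_mul, norm_mul]
      have hτ0 : 0 ≤ τ := zero_le_one.trans hτ
      calc τ * ‖F1 q * ∏ p ∈ L, F1 p - F0 q * ∏ p ∈ L, F0 p‖
          ≤ τ * (‖F1 q‖ * ‖∏ p ∈ L, F1 p - ∏ p ∈ L, F0 p‖ +
            ‖F1 q - F0 q‖ * ‖∏ p ∈ L, F0 p‖) := mul_le_mul_of_nonneg_left h4 hτ0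
        _ = ‖F1 q‖ * (τ * ‖∏ p ∈ L, F1 p - ∏ p ∈ L, F0 p‖) +
            (τ * ‖F1 q - F0 q‖) * ‖∏ p ∈ L, F0 p‖ := by ring
        _ ≤ (a q + b q) * (∏ p ∈ L, (a p + b p) - ∏ p ∈ L, a p) + b q * ∏ p ∈ L, a p := by
            refine add_le_add (mul_le_mul hF1 h2 (mul_nonneg hτ0 hD0) (add_nonneg ha0 hb0)) ?_
            exact mul_le_mul hbq h1 hP0 hb0
        _ = (a q + b q) * ∏ p ∈ L, (a p + b p) - a q * ∏ p ∈ L, a p := by ring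

theorem prod_tau (L : Finset ℕ) (F0 F1 : ℕ → ℂ) (a b : ℕ → ℝ) (τ : ℝ) (hτ : 1 ≤ τ)
    (ha : ∀ p ∈ L, ‖F0 p‖ ≤ a p) (hb : ∀ p ∈ L, τ * ‖F1 p - F0 p‖ ≤ b p) :
    ‖(τ : ℂ) * ∏ p ∈ L, F1 p - ((τ - 1 : ℝ) : ℂ) * ∏ p ∈ L, F0 p‖ ≤ ∏ p ∈ L, (a p + b p) := by
  obtain ⟨h1, h2⟩ := NLProd_ind L F0 F1 a b τ hτ ha hb
  have h3 : (τ : ℂ) * ∏ p ∈ L, F1 p - ((τ - 1 : ℝ) : ℂ) * ∏ p ∈ L, F0 p =
      ∏ p ∈ L, F0 p + (τ : ℂ) * (∏ p ∈ L, F1 p - ∏ p ∈ L, F0 p) := by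
    push_cast
    ring
  rw [h3]
  refine (norm_add_le _ _).trans ?_
  rw [norm_mul, Complex.norm_real, Real.norm_of_nonneg (zero_le_one.trans hτ)]
  linarith

end Pool.Agent.H.MP_b3c6db_nt
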